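import Pool.Agent.W958.ST.Defs

/-!
# Base lemmas on alternating forms (project ST)
-/

set_option autoImplicit false

namespace Pool.Agent.W958.ST

open MvPolynomial

section
variable {R M : Type*} [CommRing R] [AddCommGroup M] [Module R M] {n : ℕ}

/-- wedge of a functional with an alternating form -/
def wd (f : M →ₗ[R] R) (ω : M [⋀^Fin n]→ₗ[R] R) : M [⋀^Fin (n + 1)]→ₗ[R] R :=
  AlternatingMap.alternatizeUncurryFin (f.smulRight ω)

theorem wd_apply (f : M →ₗ[R] R) (ω : M [⋀^Fin n]→ₗ[R] R) (v : Fin (n + 1) → M) :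
    wd f ω v = ∑ i : Fin (n + 1), (-1) ^ (i : ℕ) * (f (v i) * ω (i.removeNth v)) := by
  rw [wd, AlternatingMap.alternatizeUncurryFin_apply]
  refine Finset.sum_congr rfl fun i _ => ?_
  rw [LinearMap.smulRight_apply, AlternatingMap.smul_apply, smul_eq_mul, zsmul_eq_mul]
  push_cast
  rfl

theorem wd_add_left (f g : M →ₗ[R] R) (ω : M [⋀^Fin n]→ₗ[R] R) :
    wd (f + g) ω = wd f ω + wd g ω := by
  ext v
  simp only [wd_apply, AlternatingMap.add_apply, LinearMap.add_apply, ← Finset.sum_add_distrib]
  exact Finset.sum_congr rfl fun i _ => by ring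

theorem wd_add (f : M →ₗ[R] R) (ω η : M [⋀^Fin n]→ₗ[R] R) :
    wd f (ω + η) = wd f ω + wd f η := by
  ext v
  simp only [wd_apply, AlternatingMap.add_apply, ← Finset.sum_add_distrib]
  exact Finset.sum_congr rfl fun i _ => by ring

theorem wd_smul (f : M →ₗ[R] R) (r : R) (ω : M [⋀^Fin n]→ₗ[R] R) :
    wd f (r • ω) = r • wd f ω := by
  ext v
  simp only [wd_apply, AlternatingMap.smul_apply, smul_eq_mul, Finset.mul_sum]
  exact Finset.sum_congr rfl fun i _ => by ring

@[simp] theorem wd_zero (f : M →ₗ[R] R) : wd f (0 : M [⋀^Fin n]→ₗ[R] R) = 0 := by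
  ext v; simp [wd_apply]

theorem curryLeft_wd (f : M →ₗ[R] R) (ω : M [⋀^Fin (n + 1)]→ₗ[R] R) (x : M) :
    (wd f ω).curryLeft x = f x • ω - wd f (ω.curryLeft x) := by
  ext v
  rw [AlternatingMap.curryLeft_apply_apply, wd_apply, Fin.sum_univ_succ, AlternatingMap.sub_apply,
    AlternatingMap.smul_apply, wd_apply]
  have h0 : ∀ i : Fin (n + 1), (i.succ).removeNth (Matrix.vecCons x v) =
      (Matrix.vecCons x (i.removeNth v) : Fin (n + 1) → M) := by
    intro i
    funext j
    refine Fin.cases ?_ (fun j => ?_) j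
    · simp [Fin.removeNth]
    · simp [Fin.removeNth]
  have h1 : (0 : Fin (n + 2)).removeNth (Matrix.vecCons x v) = v := by
    funext j; simp [Fin.removeNth]
  rw [h1]
  simp only [h0, Fin.val_zero, pow_zero, Matrix.cons_val_zero, one_mul, smul_eq_mul,
    Matrix.cons_val_succ, Fin.val_succ, AlternatingMap.curryLeft_apply_apply, sub_eq_add_neg,
    ← Finset.sum_neg_distrib]
  congr 1
  exact Finset.sum_congr rfl fun i _ => by ring

theorem curryLeft_wd_zero (f : M →ₗ[R] R) (ω : M [⋀^Fin 0]→ₗ[R] R) (x : M) :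
    (wd f ω).curryLeft x = f x • ω := by
  ext v
  rw [AlternatingMap.curryLeft_apply_apply, wd_apply]
  have h1 : (0 : Fin 1).removeNth (Matrix.vecCons x v) = v := by
    funext j; exact j.elim0
  simp [h1]

/-- two contractions anticommute -/
theorem curryLeft_comm (ω : M [⋀^Fin (n + 2)]→ₗ[R] R) (x y : M) :
    (ω.curryLeft x).curryLeft y = - (ω.curryLeft y).curryLeft x := by
  have h := AlternatingMap.curryLeft_same ω (x + y)
  have hx := AlternatingMap.curryLeft_same ω x
  have hy := AlternatingMap.curryLeft_same ω y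
  simp only [map_add, AlternatingMap.curryLeft_add, LinearMap.add_apply] at h
  rw [hx, hy] at h
  simp only [zero_add, add_zero] at h
  exact eq_neg_of_add_eq_zero_right (by rw [← h]; )

/-- moving the `j`-th argument to the front -/
theorem apply_eq_curry (ω : M [⋀^Fin (n + 1)]→ₗ[R] R) (v : Fin (n + 1) → M) (j : Fin (n + 1)) :
    ω v = (-1) ^ (j : ℕ) * ω.curryLeft (v j) (j.removeNth v) := by
  have h := AlternatingMap.map_insertNth ω j (v j) (j.removeNth v)
  rw [Fin.insertNth_self_removeNth] at h
  rw [h, AlternatingMap.curryLeft_apply_apply, zsmul_eq_mul]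
  push_cast
  rfl

/-- condition on all arguments equal to `x` in terms of the contraction -/
theorem forall_eq_zero_iff (ω : M [⋀^Fin (n + 1)]→ₗ[R] R) (x : M) :
    (∀ (v : Fin (n + 1) → M) (j : Fin (n + 1)), v j = x → ω v = 0) ↔ ω.curryLeft x = 0 := by
  constructor
  · intro h
    ext v
    rw [AlternatingMap.curryLeft_apply_apply]
    exact h _ 0 (by simp)
  · intro h v j hj
    rw [apply_eq_curry ω v j, hj, h]
    simp

theorem forall_dvd_iff (ω : M [⋀^Fin (n + 1)]→ₗ[R] R) (x : M) (f : R) :
    (∀ (v : Fin (n + 1) → M) (j : Fin (n + 1)), v j = x → f ∣ ω v) ↔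
      ∀ v : Fin n → M, f ∣ ω.curryLeft x v := by
  constructor
  · intro h v
    rw [AlternatingMap.curryLeft_apply_apply]
    exact h _ 0 (by simp)
  · intro h v j hj
    rw [apply_eq_curry ω v j, hj]
    exact Dvd.dvd.mul_left (h _) _

/-- division of an alternating form by a nonzero element of a domain -/
theorem exists_div {R : Type*} [CommRing R] [IsDomain R] [Module R M] (ω : M [⋀^Fin n]→ₗ[R] R)
    (f : R) (hf : f ≠ 0) (h : ∀ v, f ∣ ω v) : ∃ η : M [⋀^Fin n]→ₗ[R] R, ω = f • η := by
  choose g hg using h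
  refine ⟨AlternatingMap.mk (MultilinearMap.mk g ?_ ?_) ?_, ?_⟩
  · intro _ v i x y
    apply mul_left_cancel₀ hf
    rw [← hg, mul_add, ← hg, ← hg, ω.map_update_add]
  · intro _ v i c x
    apply mul_left_cancel₀ hf
    rw [← hg, ω.map_update_smul, hg, smul_eq_mul, smul_eq_mul]
    ring
  · intro v i j hij hne
    apply mul_left_cancel₀ hf
    rw [← hg, ω.map_eq_zero_of_eq v hij hne, mul_zero]
  · ext v
    rw [AlternatingMap.smul_apply, smul_eq_mul]
    exact hg v

/-- coefficients of an alternating form on a free module with ordered basis `b` -/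
noncomputable def coB {I : Type} [LinearOrder I] (b : Module.Basis I R M) (n : ℕ) :
    (M [⋀^Fin n]→ₗ[R] R) ≃ₗ[R] ((Fin n ↪o I) → R) :=
  (exteriorPower.alternatingMapLinearEquiv (R := R) (M := M) (N := R) (n := n)).trans
    (((b.exteriorPower n).constr R (M' := R)).symm.trans
      (LinearEquiv.funCongrLeft R R Set.powersetCard.ofFinEmbEquiv))

theorem coB_apply {I : Type} [LinearOrder I] (b : Module.Basis I R M) (n : ℕ)
    (ω : M [⋀^Fin n]→ₗ[R] R) (u : Fin n ↪o I) : coB b n ω u = ω (fun j => b (u j)) := by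
  rw [coB, LinearEquiv.trans_apply, LinearEquiv.trans_apply, LinearEquiv.funCongrLeft_apply,
    LinearMap.funLeft_apply, Module.Basis.constr_symm_apply]
  rw [exteriorPower.basis_apply, exteriorPower.ιMulti_family,
    exteriorPower.alternatingMapLinearEquiv_apply_ιMulti]
  simp only [Equiv.symm_apply_apply]
  rfl

/-- an alternating form is determined by its values on increasing tuples of basis vectors -/
theorem ext_incr {I : Type} [LinearOrder I] (b : Module.Basis I R M) {ω η : M [⋀^Fin n]→ₗ[R] R}
    (h : ∀ u : Fin n ↪o I, ω (fun j => b (u j)) = η (fun j => b (u j))) : ω = η := by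
  apply (coB b n).injective
  funext u
  rw [coB_apply, coB_apply, h u]

/-- an alternating form with prescribed values on increasing tuples of basis vectors -/
theorem exists_incr {I : Type} [LinearOrder I] (b : Module.Basis I R M) (g : (Fin n ↪o I) → R) :
    ∃ ω : M [⋀^Fin n]→ₗ[R] R, ∀ u : Fin n ↪o I, ω (fun j => b (u j)) = g u := by
  obtain ⟨ω, hω⟩ := (coB b n).surjective g
  exact ⟨ω, fun u => by rw [← coB_apply, hω]⟩

/-- the value at an arbitrary tuple is an `R`-combination of the values at basis tuples -/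
theorem expand {I : Type} [Fintype I] (b : Module.Basis I R M) (ω : M [⋀^Fin n]→ₗ[R] R)
    (v : Fin n → M) :
    ω v = ∑ w : Fin n → I, (∏ j, b.repr (v j) (w j)) * ω (fun j => b (w j)) := by
  classical
  conv_lhs => rw [show v = fun j => ∑ i : I, b.repr (v j) i • b i from
    funext fun j => (b.sum_repr (v j)).symm]
  have h := ω.toMultilinearMap.map_sum (fun (j : Fin n) (i : I) => b.repr (v j) i • b i)
  rw [AlternatingMap.coe_multilinearMap] at h
  rw [h]
  refine Finset.sum_congr rfl fun w _ => ?_
  have h2 := ω.toMultilinearMap.map_smul_univ (fun j => b.repr (v j) (w j)) (fun j => b (w j))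
  rw [AlternatingMap.coe_multilinearMap] at h2
  rw [h2, smul_eq_mul]

end

/-- the value of a form on `S^ι` at a tuple of standard basis vectors indexed by a non-injective
map is zero -/
theorem apply_single_of_not_injective {R : Type*} [CommRing R] {ι : Type} [DecidableEq ι] {n : ℕ}
    (ω : (ι → R) [⋀^Fin n]→ₗ[R] R) (w : Fin n → ι) (h : ¬ Function.Injective w) :
    ω (fun j => Pi.single (w j) 1) = 0 := by
  simp only [Function.Injective, not_forall] at h
  obtain ⟨i, j, hij, hne⟩ := h
  exact ω.map_eq_zero_of_eq _ (by simp only [hij]) hne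

/-- expansion in the standard basis of `S^ι` -/
theorem expand_single {R : Type*} [CommRing R] {ι : Type} [Fintype ι] [DecidableEq ι] {n : ℕ}
    (ω : (ι → R) [⋀^Fin n]→ₗ[R] R) (v : Fin n → (ι → R)) :
    ω v = ∑ w : Fin n → ι, (∏ j, v j (w j)) * ω (fun j => Pi.single (w j) 1) := by
  have h := expand (Pi.basisFun R ι) ω v
  simpa only [Pi.basisFun_repr, Pi.basisFun_apply] using h

/-- two forms on `S^ι` which agree on tuples of standard basis vectors are equal -/
theorem ext_single {R : Type*} [CommRing R] {ι : Type} [Fintype ι] [DecidableEq ι] {n : ℕ}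
    {ω η : (ι → R) [⋀^Fin n]→ₗ[R] R}
    (h : ∀ w : Fin n → ι, ω (fun j => Pi.single (w j) 1) = η (fun j => Pi.single (w j) 1)) :
    ω = η := by
  ext v
  rw [expand_single ω v, expand_single η v]
  exact Finset.sum_congr rfl fun w _ => by rw [h w]

/-- every alternating family of scalars gives an alternating form -/
theorem exists_single {R : Type*} [CommRing R] {ι : Type} [Fintype ι] [DecidableEq ι] {n : ℕ}
    (g : (Fin n → ι) → R) (h0 : ∀ w, ¬ Function.Injective w → g w = 0)
    (h1 : ∀ (w : Fin n → ι) (σ : Equiv.Perm (Fin n)), g (w ∘ σ) = Equiv.Perm.sign σ • g w) :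
    ∃ ω : (ι → R) [⋀^Fin n]→ₗ[R] R, ∀ w, ω (fun j => Pi.single (w j) 1) = g w := by
  classical
  let _ : LinearOrder ι := LinearOrder.lift' (Fintype.equivFin ι) (Fintype.equivFin ι).injective
  obtain ⟨ω, hω⟩ := exists_incr (n := n) (Pi.basisFun R ι) (fun u => g u)
  refine ⟨ω, fun w => ?_⟩
  by_cases hw : Function.Injective w
  · -- sort
    have hcard : (Finset.univ.image w).card = n := by
      rw [Finset.card_image_of_injective _ hw, Finset.card_univ, Fintype.card_fin]
    let u : Fin n ↪o ι := (Finset.univ.image w).orderEmbOfFin hcard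
    have hu : ∀ j, ∃ i, u i = w j := by
      intro j
      have h : w j ∈ Set.range u := by
        rw [Finset.range_orderEmbOfFin]
        simp
      exact h
    choose f hf using hu
    have hfi : Function.Injective f := by
      intro i j hij
      apply hw
      rw [← hf i, ← hf j, hij]
    let σ : Equiv.Perm (Fin n) := Equiv.ofBijective f (Finite.injective_iff_bijective.mp hfi)
    have hwu : w = u ∘ σ := by
      funext j
      exact (hf j).symm
    have h2 := ω.map_perm (fun j => (Pi.single (u j) 1 : ι → R)) σ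
    have h3 : (fun j => (Pi.single (w j) 1 : ι → R)) = (fun j => (Pi.single (u j) 1 : ι → R)) ∘ σ := by
      funext j
      rw [hwu]
      rfl
    rw [h3, h2, hwu, h1]
    congr 1
    have h4 := hω u
    simp only [Pi.basisFun_apply] at h4
    exact h4
  · rw [apply_single_of_not_injective ω w hw, h0 w hw]

end Pool.Agent.W958.ST
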