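import Pool.Agent.W958.ST.Defs

/-!
# Statements of project ST (counterexample for MP_fe1391_co)
-/

set_option autoImplicit false

namespace Pool.Agent.W958.ST

open MvPolynomial

/-- generating function of a sequence of dimensions -/
noncomputable def gen (g : ℕ → ℕ) : PowerSeries ℤ := PowerSeries.mk fun k => (g k : ℤ)

/-- `∑_{p ≤ N} gen (g p) * (-X) ^ p` -/
noncomputable def Psi (g : ℕ → ℕ → ℕ) (N : ℕ) : PowerSeries ℤ :=
  ∑ p ∈ Finset.range (N + 1), gen (g p) * (-PowerSeries.X) ^ p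

/-- ST-1. Multi-derivations are alternating forms in the differentials. -/
def StBridge : Prop :=
  ∀ (K : Type) [Field K] (n : ℕ) (L : Set (Fin n → K)), (∀ α ∈ L, α ≠ 0) →
    ∀ A : Finset (Submodule K (Fin n → K)), (∀ H, H ∈ A ↔ ∃ α ∈ L, H = hyp α) →
      ∀ p k : ℕ, Module.finrank K (Submodule.span K (FS A p k)) = Module.finrank K (DD L p k)

/-- ST-2. Multi-derivations of a product arrangement. -/
def StProd : Prop :=
  ∀ (K : Type) [Field K] (m n : ℕ) (L1 : Set (Fin m → K)) (L2 : Set (Fin n → K)) (p k : ℕ),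
    Module.finrank K (DD (prodArr L1 L2) p k) =
      ∑ a ∈ Finset.range (p + 1), ∑ b ∈ Finset.range (k + 1),
        Module.finrank K (DD L1 a b) * Module.finrank K (DD L2 (p - a) (k - b))

/-- ST-3. Splitting off the Euler derivation. -/
def StEuler : Prop :=
  ∀ (K σ : Type) [Field K] [Fintype σ] [DecidableEq σ] (L : Set (σ → K)) (α : σ → K),
    α ∈ L → α ≠ 0 →
    (∀ p k : ℕ, Module.finrank K (DD L (p + 1) (k + 1)) =
      Module.finrank K (HD L α (p + 1) (k + 1)) + Module.finrank K (HD L α p k)) ∧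
    (∀ p : ℕ, Module.finrank K (DD L (p + 1) 0) = Module.finrank K (HD L α (p + 1) 0)) ∧
    (∀ k : ℕ, Module.finrank K (DD L 0 k) = Module.finrank K (HD L α 0 k)) ∧
    (∀ p k : ℕ, Fintype.card σ ≤ p → Module.finrank K (HD L α p k) = 0) ∧
    (∀ p k : ℕ, Fintype.card σ < p → Module.finrank K (DD L p k) = 0)

/-! The four derivations of degree 3 (killing `d`) of the arrangement `T`: values on `a`, `b`, `c`;
`a θ_0 + b θ_1 + c θ_2 + d θ_3 = 0`. -/

/-- values on `a` -/
def tha {S : Type} [CommRing S] (a b c d : S) : Fin 4 → S :=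
  ![-(a * (2 * b * c + 2 * c * d + 2 * b * d + a * d + d * d)), a * c * (a - d), a * b * (a - d),
    a * (a * (b + d) + (a + 2 * c) * (a + b))]

/-- values on `b` -/
def thb {S : Type} [CommRing S] (a b c d : S) : Fin 4 → S :=
  ![-(b * (b + d) * (2 * c + d)), -(b * c * (b + d)), b * (b + d) * (2 * a + b), a * b * (b + d)]

/-- values on `c` -/
def thc {S : Type} [CommRing S] (a b c d : S) : Fin 4 → S :=
  ![-(c * (c + d) * (2 * b + d)), c * (c + d) * (2 * a + c), -(b * c * (c + d)), a * c * (c + d)]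

/-- ST-4. Structure of the module of derivations of `T` which kill `d`, over any polynomial ring
containing the four variables. -/
def StTS : Prop :=
  ∀ (σ : Type) (i : Fin 4 → σ), Function.Injective i →
    ∀ a b c d : MvPolynomial σ ℚ, a = X (i 0) → b = X (i 1) → c = X (i 2) → d = X (i 3) →
    (∀ u v w : MvPolynomial σ ℚ, a ∣ u → b ∣ v → (b + d) ∣ v → c ∣ w → (c + d) ∣ w →
      (a + b) ∣ (u + v) → (a + c) ∣ (u + w) → (a + b + c + d) ∣ (u + v + w) →
      ∃ f : Fin 4 → MvPolynomial σ ℚ, u = ∑ j, f j * tha a b c d j ∧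
        v = ∑ j, f j * thb a b c d j ∧ w = ∑ j, f j * thc a b c d j) ∧
    (∀ f : Fin 4 → MvPolynomial σ ℚ, ∑ j, f j * tha a b c d j = 0 → ∑ j, f j * thb a b c d j = 0 →
      ∑ j, f j * thc a b c d j = 0 → ∃ g, f 0 = g * a ∧ f 1 = g * b ∧ f 2 = g * c ∧ f 3 = g * d)

/-- ST-5. Dimensions for `T`. -/
def StTdim : Prop :=
  (∀ k : ℕ, Module.finrank ℚ (HD LT aT 0 k) = (k + 3).choose 3) ∧
  (∀ k : ℕ, k < 3 → Module.finrank ℚ (HD LT aT 1 k) = 0) ∧
  (Module.finrank ℚ (HD LT aT 1 3) = 4) ∧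
  (∀ k : ℕ, Module.finrank ℚ (HD LT aT 1 (k + 4)) + (k + 3).choose 3 = 4 * (k + 4).choose 3) ∧
  (∀ k : ℕ, k < 5 → Module.finrank ℚ (HD LT aT 2 k) = 0) ∧
  (∀ k : ℕ, Module.finrank ℚ (HD LT aT 2 (k + 5)) + (k + 4).choose 3 = 4 * (k + 3).choose 3) ∧
  (∀ k : ℕ, k < 8 → Module.finrank ℚ (HD LT aT 3 k) = 0) ∧
  (∀ k : ℕ, Module.finrank ℚ (HD LT aT 3 (k + 8)) = (k + 3).choose 3)

/-- ST-6. Exactness of the Koszul complex of a regular sequence and the Hilbert series of the
cycles. -/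
def StKoszul : Prop :=
  ∀ (K σ : Type) [Field K] [Fintype σ] [DecidableEq σ] (n : ℕ) (φ : Fin n → MvPolynomial σ K)
    (a : Fin n → ℕ), (∀ i, (φ i).IsHomogeneous (a i)) → Reg φ →
    (1 - PowerSeries.X) * Psi (fun p k => Module.finrank K (KZ φ a p k)) n =
      gen (sdim K σ) * ∏ i, (1 - PowerSeries.X ^ (a i + 1)) -
        PowerSeries.X * (gen (sdim K σ) * ∏ i, (1 - PowerSeries.X ^ (a i)))

/-- ST-7. The multi-derivations of `B` killed by the generic hyperplane are the Koszul cycles. -/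
def StFrame : Prop :=
  ∀ p k : ℕ, Module.finrank ℚ (HD LB aB p k) = Module.finrank ℚ (KZ φB dB p k)

/-- ST-8. The sequence `φB` is homogeneous and regular. -/
def StReg : Prop := (∀ i, (φB i).IsHomogeneous (dB i)) ∧ Reg φB

/-- ST-9. The product arrangement is not free. -/
def StNonFree : Prop :=
  ∀ A : Finset (Submodule ℚ (Fin (4 + 12) → ℚ)), (∀ H, H ∈ A ↔ ∃ α ∈ prodArr LT LB, H = hyp α) →
    ¬ Module.Free (MvPolynomial (Fin (4 + 12)) ℚ)
      (Submodule.span (MvPolynomial (Fin (4 + 12)) ℚ) (FD A))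

/-- ST-10. Number of monomials. -/
def StSdim : Prop :=
  ∀ (K : Type) [Field K] (n : ℕ), (1 - PowerSeries.X) ^ n * gen (sdim K (Fin n)) = 1

end Pool.Agent.W958.ST
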