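import Pool.Agent.W958.ST.Kz2
import Mathlib.RingTheory.MvPolynomial.IrreducibleQuadratic

/-!
# StEuler (project ST)
-/

set_option autoImplicit false

namespace Pool.Agent.W958.ST

open MvPolynomial

variable {K σ : Type} [Field K] [Fintype σ]

theorem lin_hom (α : σ → K) : (lin α).IsHomogeneous 1 := by
  unfold lin
  exact IsHomogeneous.sum _ _ _ fun i _ => by simpa using (isHomogeneous_C σ (α i)).mul (isHomogeneous_X K i)

theorem coeff_lin [DecidableEq σ] (α : σ → K) (i : σ) :
    (lin α).coeff (Finsupp.single i 1) = α i := by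
  unfold lin
  rw [coeff_sum, Finset.sum_eq_single i]
  · simp
  · intro b _ hb
    rw [coeff_C_mul, coeff_X, if_neg, mul_zero]
    intro h
    exact hb (Finsupp.single_left_injective one_ne_zero h)
  · simp

theorem lin_ne {α : σ → K} (h : α ≠ 0) : lin α ≠ 0 := by
  classical
  intro h0
  apply h
  funext i
  rw [← coeff_lin α i, h0]
  simp

theorem lin_prime {α : σ → K} (h : α ≠ 0) : Prime (lin α) := by
  classical
  apply Irreducible.prime
  apply irreducible_of_totalDegree_eq_one ((lin_hom α).totalDegree (lin_ne h))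
  intro x hx
  obtain ⟨i, hi⟩ : ∃ i, α i ≠ 0 := by
    by_contra hc
    push Not at hc
    exact h (funext hc)
  have h1 := hx (Finsupp.single i 1)
  rw [coeff_lin] at h1
  rw [isUnit_iff_ne_zero]
  rintro rfl
  exact hi (zero_dvd_iff.mp h1)

theorem lin_dvd_lin {α β : σ → K} (hα : α ≠ 0) (h : lin β ∣ lin α) :
    ∃ c : K, cv β = (C c : MvPolynomial σ K) • cv α := by
  classical
  obtain ⟨g, hg⟩ := h
  have h0 : lin α ≠ 0 := lin_ne hα
  have hβ : lin β ≠ 0 := by rintro h1; rw [h1, zero_mul] at hg; exact h0 hg
  have hg0 : g ≠ 0 := by rintro h1; rw [h1, mul_zero] at hg; exact h0 hg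
  have hd := totalDegree_mul_of_isDomain hβ hg0
  rw [← hg, (lin_hom α).totalDegree h0, (lin_hom β).totalDegree hβ] at hd
  have hd0 : g.totalDegree = 0 := by omega
  rw [totalDegree_eq_zero_iff_eq_C] at hd0
  set c := coeff 0 g with hc
  have hα' : ∀ i, α i = β i * c := by
    intro i
    rw [← coeff_lin α i, hg, hd0, mul_comm, coeff_C_mul, coeff_lin, mul_comm]
  have hc0 : c ≠ 0 := by
    rintro h1
    apply hα
    funext i
    rw [hα' i, h1, mul_zero]
    rfl
  refine ⟨c⁻¹, ?_⟩
  funext i
  simp only [cv, Pi.smul_apply, smul_eq_mul, ← C_mul]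
  congr 1
  rw [hα' i]
  field_simp

omit [Fintype σ] in
theorem hom_of_mul {f g : MvPolynomial σ K} {c k : ℕ} (hf : f.IsHomogeneous c) (hf0 : f ≠ 0)
    (h : (f * g).IsHomogeneous (c + k)) : g.IsHomogeneous k := by
  have h1 : ∀ d, d ≠ k → homogeneousComponent d g = 0 := by
    intro d hd
    have h2 := hcomp_mul (g := g) hf (c + d)
    rw [if_pos (by omega), Nat.add_sub_cancel_left,
      homogeneousComponent_of_mem ((mem_homogeneousSubmodule _ _).mpr h), if_neg (by omega)] at h2
    exact (mul_eq_zero.mp h2.symm).resolve_left hf0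
  have h3 : homogeneousComponent k g = g := by
    conv_rhs => rw [← sum_homogeneousComponent g]
    by_cases hk : k ∈ Finset.range (g.totalDegree + 1)
    · rw [Finset.sum_eq_single k]
      · intro b _ hb
        exact h1 b hb
      · intro h4; exact absurd hk h4
    · rw [homogeneousComponent_eq_zero k g (by rw [Finset.mem_range] at hk; omega)]
      symm
      apply Finset.sum_eq_zero
      intro i hi
      exact h1 i (by rintro rfl; exact hk hi)
  rw [← h3]
  exact homogeneousComponent_isHomogeneous k g

omit [Fintype σ] in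
theorem eq_zero_of_dvd_hom {f g : MvPolynomial σ K} (hf : f.IsHomogeneous 1)
    (h : f ∣ g) (hg : g.IsHomogeneous 0) : g = 0 := by
  obtain ⟨u, rfl⟩ := h
  have h2 := hcomp_mul (g := u) hf 0
  rw [if_neg (by omega), mul_zero, homogeneousComponent_eq_self hg] at h2
  exact h2

variable [DecidableEq σ] {p k : ℕ}

theorem curry_cv (ω : Alt σ K σ (p + 1)) (φ : σ → MvPolynomial σ K) :
    ω.curryLeft φ = ∑ i, φ i • ω.curryLeft (Pi.single i 1) := by
  have h : φ = ∑ i, φ i • (Pi.single i 1 : σ → MvPolynomial σ K) := by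
    funext j
    simp [Finset.sum_apply, Pi.single_apply]
  conv_lhs => rw [h, map_sum]
  exact Finset.sum_congr rfl fun i _ => map_smul _ _ _

omit [Fintype σ] in
theorem single_cons' (m : σ) (w : Fin p → σ) :
    (Matrix.vecCons (Pi.single m 1) (fun j => Pi.single (w j) 1) :
      Fin (p + 1) → (σ → MvPolynomial σ K)) =
      fun j => Pi.single ((Matrix.vecCons m w : Fin (p + 1) → σ) j) 1 := by
  funext j
  refine Fin.cases ?_ (fun j => ?_) j
  · simp
  · simp

theorem hom_curry {ω : Alt σ K σ (p + 1)}
    (h : ∀ w : Fin (p + 1) → σ, (ω (fun j => Pi.single (w j) 1)).IsHomogeneous k) (α : σ → K)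
    (w : Fin p → σ) :
    (ω.curryLeft (cv α) (fun j => Pi.single (w j) 1)).IsHomogeneous k := by
  rw [curry_cv, alt_sum_apply]
  refine IsHomogeneous.sum _ _ _ fun i _ => ?_
  rw [AlternatingMap.smul_apply, smul_eq_mul, AlternatingMap.curryLeft_apply_apply, single_cons']
  simpa [cv] using (isHomogeneous_C σ (α i)).mul (h (Matrix.vecCons i w))

/-- the Euler functional -/
noncomputable def eu (K σ : Type) [Field K] [Fintype σ] :
    (σ → MvPolynomial σ K) →ₗ[MvPolynomial σ K] MvPolynomial σ K :=
  ∑ i, (X i : MvPolynomial σ K) • LinearMap.proj i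

omit [DecidableEq σ] in
theorem eu_apply (v : σ → MvPolynomial σ K) : eu K σ v = ∑ i, X i * v i := by
  simp [eu, LinearMap.sum_apply]

omit [DecidableEq σ] in
theorem eu_cv (α : σ → K) : eu K σ (cv α) = lin α := by
  rw [eu_apply, lin]
  exact Finset.sum_congr rfl fun i _ => by rw [cv, mul_comm]

theorem eu_single (i : σ) : eu K σ (Pi.single i 1) = X i := by
  rw [eu_apply, Finset.sum_eq_single i]
  · simp
  · intro b _ hb
    rw [Pi.single_eq_of_ne hb, mul_zero]
  · simp

theorem wd_eu_mem (L : Set (σ → K)) {η : Alt σ K σ p} (h : η ∈ DD L p k) :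
    wd (eu K σ) η ∈ DD L (p + 1) (k + 1) := by
  refine ⟨?_, ?_⟩
  · intro β hβ v j hj
    rw [wd_apply]
    refine Finset.dvd_sum fun i _ => ?_
    apply Dvd.dvd.mul_left
    by_cases hij : j = i
    · subst hij
      rw [hj, eu_cv]
      exact dvd_mul_right _ _
    · obtain ⟨j', hj'⟩ := Fin.exists_succAbove_eq hij
      apply Dvd.dvd.mul_left
      apply h.1 β hβ (i.removeNth v) j'
      rw [← hj, ← hj']
      rfl
  · intro w
    rw [wd_apply]
    refine IsHomogeneous.sum _ _ _ fun i _ => ?_
    have e1 : ((-1) ^ (i : ℕ) : MvPolynomial σ K) = C ((-1) ^ (i : ℕ)) := by simp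
    rw [e1, eu_single]
    have h1 := (isHomogeneous_C σ ((-1 : K) ^ (i : ℕ))).mul
      ((isHomogeneous_X K (w i)).mul (h.2 (i.removeNth w)))
    have e2 : 0 + (1 + k) = k + 1 := by omega
    rw [e2] at h1
    exact h1

/-- contraction with `cv α` as a `K`-linear map -/
noncomputable def ctα (α : σ → K) (p : ℕ) : Alt σ K σ (p + 1) →ₗ[K] Alt σ K σ p where
  toFun ω := ω.curryLeft (cv α)
  map_add' _ _ := rfl
  map_smul' _ _ := rfl

/-- multiplication by `lin α` -/
noncomputable def muα (α : σ → K) (p : ℕ) : Alt σ K σ p →ₗ[K] Alt σ K σ p where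
  toFun ω := lin α • ω
  map_add' _ _ := smul_add _ _ _
  map_smul' _ _ := smul_comm _ _ _

theorem HD_succ_iff (L : Set (σ → K)) (α : σ → K) (ω : Alt σ K σ (p + 1)) :
    ω ∈ HD L α (p + 1) k ↔ ω ∈ DD L (p + 1) k ∧ ω.curryLeft (cv α) = 0 := by
  rw [← forall_eq_zero_iff]
  exact Iff.rfl

theorem euler_step (L : Set (σ → K)) (α : σ → K) (hα : α ∈ L) (h0 : α ≠ 0) :
    Module.finrank K (DD L (p + 1) (k + 1)) =
      Module.finrank K (HD L α (p + 1) (k + 1)) + Module.finrank K (HD L α p k) := by
  have h := rank_null (ctα α p) (DD L (p + 1) (k + 1))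
  have h1 : DD L (p + 1) (k + 1) ⊓ LinearMap.ker (ctα α p) = HD L α (p + 1) (k + 1) := by
    ext ω
    rw [HD_succ_iff, Submodule.mem_inf, LinearMap.mem_ker]
    exact Iff.rfl
  have h2 : (DD L (p + 1) (k + 1)).map (ctα α p) = (HD L α p k).map (muα α p) := by
    ext ω
    rw [Submodule.mem_map, Submodule.mem_map]
    constructor
    · rintro ⟨η, hη, rfl⟩
      have hdv := (forall_dvd_iff η (cv α) (lin α)).mp (hη.1 α hα)
      obtain ⟨ξ, hξ⟩ := exists_div (η.curryLeft (cv α)) (lin α) (lin_ne h0) hdv
      have hval : ∀ v, η (Matrix.vecCons (cv α) v) = lin α * ξ v := by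
        intro v
        rw [← AlternatingMap.curryLeft_apply_apply, hξ]
        rfl
      have hk : ∀ (v : Fin p → (σ → MvPolynomial σ K)) (j : Fin p), v j = cv α → ξ v = 0 := by
        intro v j hj
        have h3 := η.map_eq_zero_of_eq (Matrix.vecCons (cv α) v) (i := 0) (j := j.succ)
          (by simp [hj]) (Fin.succ_ne_zero j).symm
        rw [hval] at h3
        exact (mul_eq_zero.mp h3).resolve_left (lin_ne h0)
      refine ⟨ξ, ⟨⟨?_, ?_⟩, hk⟩, hξ.symm⟩
      · intro β hβ v j hj
        by_cases hβ0 : β = 0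
        · have : v j = 0 := by
            rw [hj, hβ0]
            funext i
            simp [cv]
          rw [ξ.map_coord_zero j this]
          exact dvd_zero _
        · have h4 : lin β ∣ lin α * ξ v := by
            rw [← hval]
            exact hη.1 β hβ (Matrix.vecCons (cv α) v) j.succ (by simp [hj])
          rcases (lin_prime hβ0).dvd_or_dvd h4 with h5 | h5
          · obtain ⟨c, hc⟩ := lin_dvd_lin h0 h5
            have h6 : ξ v = C c * ξ (Function.update v j (cv α)) := by
              have h7 := ξ.map_update_smul v j (C c) (cv α)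
              rw [← hc, ← hj, Function.update_eq_self] at h7
              exact h7
            rw [h6, hk _ j (by simp), mul_zero]
            exact dvd_zero _
          · exact h5
      · intro w
        apply hom_of_mul (lin_hom α) (lin_ne h0)
        rw [← hval]
        have := hom_curry (k := k + 1) hη.2 α w
        rw [add_comm 1 k]
        exact this
    · rintro ⟨ξ, hξ, rfl⟩
      refine ⟨wd (eu K σ) ξ, wd_eu_mem L hξ.1, ?_⟩
      change (wd (eu K σ) ξ).curryLeft (cv α) = lin α • ξ
      cases p with
      | zero => rw [curryLeft_wd_zero, eu_cv]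
      | succ p =>
        rw [curryLeft_wd, eu_cv, (forall_eq_zero_iff ξ (cv α)).mp hξ.2, wd_zero, sub_zero]
  have h3 : Module.finrank K ((HD L α p k).map (muα α p)) = Module.finrank K (HD L α p k) := by
    apply LinearEquiv.finrank_eq
    refine (Submodule.equivMapOfInjective (muα α p) ?_ _).symm
    intro x y hxy
    have hxy : lin α • x = lin α • y := hxy
    refine AlternatingMap.ext fun v => ?_
    have h4 := congrArg (fun z => z v) hxy
    simp only [AlternatingMap.smul_apply, smul_eq_mul] at h4
    exact mul_left_cancel₀ (lin_ne h0) h4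
  rw [h1, h2, h3] at h
  exact h

theorem HD_zero_of_card (L : Set (σ → K)) (α : σ → K) (h0 : α ≠ 0)
    (hp : Fintype.card σ ≤ p) : HD L α p k = ⊥ := by
  rw [eq_bot_iff]
  intro ω hω
  rw [Submodule.mem_bot]
  apply ext_single
  intro w
  rw [AlternatingMap.zero_apply]
  by_cases hw : Function.Injective w
  · have hcard : Fintype.card σ = Fintype.card (Fin p) := by
      have := Fintype.card_le_of_injective w hw
      simp at this
      simp
      omega
    have hbij : Function.Bijective w := (Fintype.bijective_iff_injective_and_card w).mpr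
      ⟨hw, hcard.symm⟩
    obtain ⟨i0, hi0⟩ : ∃ i, α i ≠ 0 := by
      by_contra hc
      push Not at hc
      exact h0 (funext hc)
    obtain ⟨j, hj⟩ := hbij.2 i0
    set e : Fin p → (σ → MvPolynomial σ K) := fun j => Pi.single (w j) 1 with he
    have h1 : ω (Function.update e j (cv α)) = 0 := hω.2 _ j (by simp)
    have h2 : (cv α : σ → MvPolynomial σ K) =
        ∑ i, (C (α i) : MvPolynomial σ K) • (Pi.single i 1 : σ → MvPolynomial σ K) := by
      funext l
      simp [Finset.sum_apply, Pi.single_apply, cv]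
    rw [h2] at h1
    have h3 := ω.toMultilinearMap.map_update_sum Finset.univ j
      (fun i => (C (α i) : MvPolynomial σ K) • (Pi.single i 1 : σ → MvPolynomial σ K)) e
    rw [AlternatingMap.coe_multilinearMap] at h3
    rw [h3, Finset.sum_eq_single i0] at h1
    · rw [ω.map_update_smul] at h1
      have h4 : Function.update e j (Pi.single i0 1) = e := by
        have : (Pi.single i0 1 : σ → MvPolynomial σ K) = e j := by rw [he]; simp only [hj]
        rw [this, Function.update_eq_self]
      rw [h4, smul_eq_mul] at h1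
      exact (mul_eq_zero.mp h1).resolve_left (by simpa using hi0)
    · intro b _ hb
      rw [ω.map_update_smul]
      obtain ⟨j', hj'⟩ := hbij.2 b
      have hne : j' ≠ j := by
        rintro rfl
        exact hb (by rw [← hj', hj])
      rw [ω.map_eq_zero_of_eq (i := j) (j := j') _ ?_ hne.symm, smul_zero]
      rw [Function.update_self, Function.update_of_ne hne, he]
      simp only [hj']
    · simp
  · exact apply_single_of_not_injective ω w hw

theorem DD_zero_of_card (L : Set (σ → K)) (hp : Fintype.card σ < p) : DD L p k = ⊥ := by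
  rw [eq_bot_iff]
  intro ω _
  rw [Submodule.mem_bot]
  apply ext_single
  intro w
  rw [AlternatingMap.zero_apply]
  apply apply_single_of_not_injective ω w
  intro hw
  have := Fintype.card_le_of_injective w hw
  simp at this
  omega

theorem main_euler : StEuler := by
  intro K σ _ _ _ L α hα h0
  refine ⟨fun p k => euler_step L α hα h0, fun p => ?_, fun k => ?_, fun p k hp => ?_,
    fun p k hp => ?_⟩
  · have : DD L (p + 1) 0 = HD L α (p + 1) 0 := by
      ext ω
      rw [HD_succ_iff]
      refine ⟨fun h => ⟨h, ?_⟩, fun h => h.1⟩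
      apply ext_single
      intro w
      rw [AlternatingMap.zero_apply]
      apply eq_zero_of_dvd_hom (lin_hom α) _ (hom_curry h.2 α w)
      exact (forall_dvd_iff ω (cv α) (lin α)).mp (h.1 α hα) _
    rw [this]
  · have : DD L 0 k = HD L α 0 k := by
      ext ω
      exact ⟨fun h => ⟨h, fun _ j => j.elim0⟩, fun h => h.1⟩
    rw [this]
  · rw [HD_zero_of_card L α h0 hp]
    simp
  · rw [DD_zero_of_card L hp]
    simp

end Pool.Agent.W958.ST
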