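import Pool.Agent.W958.ST.Asm

/-!
# Project ST: final reduction
-/

set_option autoImplicit false

namespace Pool.Agent.W958.ST

theorem prod_ne (α : Fin (4 + 12) → ℚ) (hα : α ∈ prodArr LT LB) : α ≠ 0 := by
  intro h0
  subst h0
  rcases hα with ⟨β, hβ, h⟩ | ⟨β, hβ, h⟩
  · apply LT_ne β hβ
    funext i
    have := congrFun h (Fin.castAdd 12 i)
    simpa using this
  · apply LB_ne β hβ
    funext i
    have := congrFun h (Fin.natAdd 4 i)
    simpa using this

theorem finite_LT : LT.Finite := by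
  unfold LT
  exact Set.toFinite _

theorem finite_LB : LB.Finite := by
  unfold LB
  apply Set.Finite.insert
  have : LA ⊆ ⋃ b : Fin 4, {ev b 2, ev b 1, ev b 1 - ev b 2, ev b 0, ev b 0 - ev b 2,
      ev b 0 + ev b 2} := by
    rintro α ⟨b, h⟩
    rw [Set.mem_iUnion]
    exact ⟨b, by simpa using h⟩
  exact (Set.finite_iUnion fun b => Set.toFinite _).subset this

theorem finite_prod : (prodArr LT LB).Finite :=
  (finite_LT.image _).union (finite_LB.image _)

theorem hyp_pi (n : ℕ) (α : Fin n → ℚ) (h : α ≠ 0) :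
    ∃ a : Module.Dual ℚ (Fin n → ℚ), a ≠ 0 ∧ LinearMap.ker a = hyp α := by
  refine ⟨∑ i, α i • (LinearMap.proj i : (Fin n → ℚ) →ₗ[ℚ] ℚ), ?_, rfl⟩
  intro h0
  apply h
  funext i
  have := LinearMap.congr_fun h0 (Pi.single i 1)
  simpa [LinearMap.sum_apply, Pi.single_apply] using this

/-- The frozen negation from the ten parts. -/
theorem final (h1 : StBridge) (h2 : StProd) (h3 : StEuler) (h5 : StTdim)
    (h6 : StKoszul) (h7 : StFrame) (h8 : StReg) (h9 : StNonFree) (h10 : StSdim)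
    (hH : (1 - PowerSeries.X) ^ 4 * H4 = 1) :
    ¬ (∀ (K : Type) [Field K] (ℓ : ℕ) (A : Finset (Submodule K (Fin ℓ → K))),
      (∀ H ∈ A, ∃ a : Module.Dual K (Fin ℓ → K), a ≠ 0 ∧ LinearMap.ker a = H) →
      (Module.Free (MvPolynomial (Fin ℓ) K)
          (Submodule.span (MvPolynomial (Fin ℓ) K) (FD A)) ↔
        ∃ f : Polynomial ℤ, f ≠ 0 ∧ f.reverse = f ∧
          (f : PowerSeries ℤ) =
            ∑ p ∈ Finset.range (ℓ + 1),
              PowerSeries.mk (fun k : ℕ =>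
                  ((Module.finrank K (Submodule.span K (FS A p k)) : ℕ) : ℤ))
                * (-PowerSeries.X) ^ p)) := by
  intro H
  classical
  let A : Finset (Submodule ℚ (Fin (4 + 12) → ℚ)) := finite_prod.toFinset.image hyp
  have hA : ∀ H, H ∈ A ↔ ∃ α ∈ prodArr LT LB, H = hyp α := by
    intro H
    simp only [A, Finset.mem_image, Set.Finite.mem_toFinset]
    constructor
    · rintro ⟨α, h, rfl⟩; exact ⟨α, h, rfl⟩
    · rintro ⟨α, h, rfl⟩; exact ⟨α, h, rfl⟩
  have hA2 : ∀ H ∈ A, ∃ a : Module.Dual ℚ (Fin (4 + 12) → ℚ), a ≠ 0 ∧ LinearMap.ker a = H := by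
    intro H hH
    obtain ⟨α, hα, rfl⟩ := (hA H).mp hH
    exact hyp_pi _ α (prod_ne α hα)
  have h := H ℚ (4 + 12) A hA2
  refine h9 A hA (h.mpr ⟨fC, fC_ne, rev_fC, ?_⟩)
  rw [psiC h3 h5 h7 h6 h8 h10 hH h2, Psi]
  refine Finset.sum_congr rfl fun p _ => ?_
  congr 1
  unfold gen
  congr 1
  funext k
  rw [h1 ℚ (4 + 12) (prodArr LT LB) prod_ne A hA p k]

end Pool.Agent.W958.ST
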