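import Pool.Agent.W958.ST.Kz2

/-!
# StKoszul (project ST)
-/

set_option autoImplicit false

namespace Pool.Agent.W958.ST

open MvPolynomial

variable {K σ : Type} [Field K] [Fintype σ] [DecidableEq σ] {n : ℕ}

/-- contraction with `φ` as a `K`-linear map -/
noncomputable def ctK (φ : Fin n → MvPolynomial σ K) (p : ℕ) :
    Alt σ K (Fin n) (p + 1) →ₗ[K] Alt σ K (Fin n) p where
  toFun ω := ω.curryLeft φ
  map_add' _ _ := rfl
  map_smul' _ _ := rfl

omit [Fintype σ] [DecidableEq σ] in
theorem mem_KZ_succ {φ : Fin n → MvPolynomial σ K} {a : Fin n → ℕ} {p k : ℕ}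
    {ω : Alt σ K (Fin n) (p + 1)} :
    ω ∈ KZ φ a (p + 1) k ↔ ω ∈ WF a (p + 1) k 0 ∧ ω.curryLeft φ = 0 := by
  rw [← forall_eq_zero_iff, mem_WF]
  simp only [zero_add]
  exact Iff.rfl

theorem rank_step (φ : Fin n → MvPolynomial σ K) (a : Fin n → ℕ)
    (hφ : ∀ i, (φ i).IsHomogeneous (a i)) (hR : Reg φ) (p k : ℕ) :
    Module.finrank K (WF (K := K) (σ := σ) a (p + 2) k 0) =
      Module.finrank K (KZ φ a (p + 2) k) + Module.finrank K (KZ φ a (p + 1) k) := by
  have h := rank_null (ctK φ (p + 1)) (WF (K := K) (σ := σ) a (p + 2) k 0)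
  have h1 : (WF (K := K) (σ := σ) a (p + 2) k 0) ⊓ LinearMap.ker (ctK φ (p + 1)) =
      KZ φ a (p + 2) k := by
    ext ω
    rw [mem_KZ_succ, Submodule.mem_inf, LinearMap.mem_ker]
    exact Iff.rfl
  have h2 : (WF (K := K) (σ := σ) a (p + 2) k 0).map (ctK φ (p + 1)) = KZ φ a (p + 1) k := by
    ext ω
    rw [mem_KZ_succ, Submodule.mem_map]
    constructor
    · rintro ⟨η, hη, rfl⟩
      exact ⟨wt_curry_phi hη hφ, AlternatingMap.curryLeft_same _ _⟩
    · rintro ⟨h3, h4⟩
      obtain ⟨η, e1, _, e3⟩ := exact_kz φ a hφ hR n le_rfl p k 0 ω h3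
        (fun j hj => absurd j.2 (by omega)) h4
      exact ⟨η, e1, e3⟩
  rw [h1, h2] at h
  exact h

theorem rank_step_one (φ : Fin n → MvPolynomial σ K) (a : Fin n → ℕ)
    (hφ : ∀ i, (φ i).IsHomogeneous (a i)) (k : ℕ) :
    Module.finrank K (WF (K := K) (σ := σ) a 1 k 0) =
      Module.finrank K (KZ φ a 1 k) + Module.finrank K (JW φ n k 0) := by
  let T : Alt σ K (Fin n) 1 →ₗ[K] MvPolynomial σ K :=
    { toFun := fun ω => ω (fun _ => φ)
      map_add' := fun _ _ => rfl
      map_smul' := fun _ _ => rfl }
  have hT : ∀ ω, T ω = ∑ i, φ i * ω (fun _ => Pi.single i 1) := by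
    intro ω
    have h1 : T ω = ω.curryLeft φ ![] := by
      change ω (fun _ => φ) = ω (Matrix.vecCons φ ![])
      congr 1
      funext j
      have : j = 0 := Subsingleton.elim _ _
      rw [this]
      rfl
    rw [h1, curry_phi, alt_sum_apply]
    refine Finset.sum_congr rfl fun i _ => ?_
    change φ i * ω (Matrix.vecCons (Pi.single i 1) ![]) = _
    congr 2
    funext j
    have : j = 0 := Subsingleton.elim _ _
    rw [this]
    rfl
  have h := rank_null T (WF (K := K) (σ := σ) a 1 k 0)
  have h1 : (WF (K := K) (σ := σ) a 1 k 0) ⊓ LinearMap.ker T = KZ φ a 1 k := by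
    ext ω
    rw [mem_KZ_succ, Submodule.mem_inf, LinearMap.mem_ker]
    refine and_congr_right fun _ => ?_
    constructor
    · intro h2
      refine AlternatingMap.ext fun v => ?_
      rw [AlternatingMap.curryLeft_apply_apply, AlternatingMap.zero_apply, ← h2]
      change _ = ω (fun _ => φ)
      congr 1
      funext j
      have : j = 0 := Subsingleton.elim _ _
      rw [this]
      rfl
    · intro h2
      have h3 := congrArg (fun η => η ![]) h2
      rw [AlternatingMap.zero_apply] at h3
      rw [← h3]
      change ω (fun _ => φ) = ω (Matrix.vecCons φ ![])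
      congr 1
      funext j
      have : j = 0 := Subsingleton.elim _ _
      rw [this]
      rfl
  have hmem : ∀ (i : Fin n) (ω : Alt σ K (Fin n) 1), ω ∈ WF a 1 k 0 →
      HomW (ω (fun _ => Pi.single i 1)) k (0 + a i) := by
    intro i ω hω
    have := hω (fun _ => i)
    simpa using this
  have h2 : (WF (K := K) (σ := σ) a 1 k 0).map T = JW φ n k 0 := by
    ext f
    rw [Submodule.mem_map]
    constructor
    · rintro ⟨η, hη, rfl⟩
      rw [hT]
      refine Submodule.sum_mem _ fun i _ => ?_
      exact ⟨Ideal.mul_mem_right _ _ (Ideal.subset_span ⟨i, i.2, rfl⟩),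
        HomW.mul_left (hφ i) (hmem i η hη)⟩
    · rintro ⟨h3, h4⟩
      obtain ⟨g, _, hg2, hg3⟩ := exists_rep φ a hφ n f h3 k 0 h4
      refine ⟨oneForm g, ?_, ?_⟩
      · intro w
        rw [oneForm_apply]
        rw [Finset.sum_eq_single (w 0)]
        · simpa using hg2 (w 0)
        · intro b _ hb
          rw [Pi.single_eq_of_ne hb, mul_zero]
        · simp
      · rw [hT, ← hg3]
        refine Finset.sum_congr rfl fun i _ => ?_
        rw [oneForm_apply, Finset.sum_eq_single i]
        · simp
        · intro b _ hb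
          rw [Pi.single_eq_of_ne hb, mul_zero]
        · simp
  rw [h1, h2] at h
  exact h

omit [Fintype σ] [DecidableEq σ] in
theorem rank_zero (φ : Fin n → MvPolynomial σ K) (a : Fin n → ℕ) (k : ℕ) :
    KZ φ a 0 k = WF (K := K) (σ := σ) a 0 k 0 := by
  ext ω
  rw [mem_WF]
  simp only [zero_add]
  constructor
  · intro h; exact h.1
  · intro h; exact ⟨h, fun v j _ => j.elim0⟩

/-- sum over increasing tuples as a sum over subsets -/
theorem sum_emb {A : Type*} [AddCommMonoid A] (p : ℕ) (g : Finset (Fin n) → A) :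
    ∑ u : Fin p ↪o Fin n, g (Finset.univ.map u.toEmbedding) =
      ∑ I ∈ Finset.powersetCard p Finset.univ, g I := by
  apply Finset.sum_bij (fun (u : Fin p ↪o Fin n) _ => Finset.univ.map u.toEmbedding)
  · intro u _
    rw [Finset.mem_powersetCard]
    exact ⟨Finset.subset_univ _, by simp⟩
  · intro u _ v _ h
    have h1 : Set.range u = Set.range v := by
      have := congrArg (fun s : Finset (Fin n) => (s : Set (Fin n))) h
      simpa using this
    exact (OrderEmbedding.range_inj (f := u) (g := v)).mp h1
  · intro I hI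
    rw [Finset.mem_powersetCard] at hI
    refine ⟨I.orderEmbOfFin hI.2, Finset.mem_univ _, ?_⟩
    apply Finset.coe_injective
    rw [Finset.coe_map, Finset.coe_univ, Set.image_univ]
    exact Finset.range_orderEmbOfFin I hI.2
  · intro u _
    rfl

theorem gen_sum {I : Type*} (s : Finset I) (g : I → ℕ → ℕ) :
    gen (fun k => ∑ i ∈ s, g i k) = ∑ i ∈ s, gen (g i) := by
  ext k
  rw [map_sum]
  simp [gen]

theorem psi_WF (a : Fin n → ℕ) :
    Psi (fun p k => Module.finrank K (WF (K := K) (σ := σ) a p k 0)) n =
      gen (sdim K σ) * ∏ i, (1 - PowerSeries.X ^ (a i + 1)) := by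
  unfold Psi
  have h1 : ∀ p, gen (fun k => Module.finrank K (WF (K := K) (σ := σ) a p k 0)) *
      (-PowerSeries.X) ^ p = gen (sdim K σ) *
        ∑ I ∈ Finset.powersetCard p Finset.univ, ∏ i ∈ I, (-PowerSeries.X ^ (a i + 1)) := by
    intro p
    have e1 : gen (fun k => Module.finrank K (WF (K := K) (σ := σ) a p k 0)) =
        ∑ u : Fin p ↪o Fin n, PowerSeries.X ^ (∑ j, a (u j)) * gen (sdim K σ) := by
      have : (fun k => Module.finrank K (WF (K := K) (σ := σ) a p k 0)) =
          (fun k => ∑ u : Fin p ↪o Fin n, Module.finrank K (HW K σ k (∑ j, a (u j)))) := by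
        funext k
        exact finrank_WF a p k
      rw [this, gen_sum]
      exact Finset.sum_congr rfl fun u _ => gen_HW _
    rw [e1, ← sum_emb p (fun I => ∏ i ∈ I, (-PowerSeries.X ^ (a i + 1) : PowerSeries ℤ)),
      Finset.sum_mul, Finset.mul_sum]
    refine Finset.sum_congr rfl fun u _ => ?_
    rw [Finset.prod_map]
    have e2 : ∏ x : Fin p, (-PowerSeries.X ^ (a (u.toEmbedding x) + 1) : PowerSeries ℤ) =
        PowerSeries.X ^ (∑ j, a (u j)) * (-PowerSeries.X) ^ p := by
      have : ∀ x : Fin p, (-PowerSeries.X ^ (a (u.toEmbedding x) + 1) : PowerSeries ℤ) =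
          PowerSeries.X ^ (a (u x)) * (-PowerSeries.X) := by
        intro x
        rw [pow_succ]
        change -(PowerSeries.X ^ (a (u x)) * PowerSeries.X) = _
        ring
      rw [Finset.prod_congr rfl fun x _ => this x, Finset.prod_mul_distrib,
        Finset.prod_pow_eq_pow_sum]
      simp
    rw [e2]
    ring
  rw [Finset.sum_congr rfl fun p _ => h1 p, ← Finset.mul_sum]
  congr 1
  have h2 : ∀ i : Fin n, (1 - PowerSeries.X ^ (a i + 1) : PowerSeries ℤ) =
      1 + (-PowerSeries.X ^ (a i + 1)) := fun i => by ring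
  rw [Finset.prod_congr rfl fun i _ => h2 i, Finset.prod_one_add, Finset.sum_powerset]
  simp

theorem gen_J (φ : Fin n → MvPolynomial σ K) (a : Fin n → ℕ)
    (hφ : ∀ i, (φ i).IsHomogeneous (a i)) (hR : Reg φ) :
    gen (sdim K σ) - gen (fun k => Module.finrank K (JW φ n k 0)) =
      gen (sdim K σ) * ∏ i, (1 - PowerSeries.X ^ (a i)) := by
  have h : ∀ m, m ≤ n → gen (sdim K σ) - gen (fun k => Module.finrank K (JW φ m k 0)) =
      gen (sdim K σ) * ∏ i ∈ Finset.range m,
        (if h : i < n then (1 - PowerSeries.X ^ (a ⟨i, h⟩)) else 1) := by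
    intro m
    induction m with
    | zero =>
      intro _
      have : gen (fun k => Module.finrank K (JW φ 0 k 0)) = 0 := by
        ext k
        rw [gen, PowerSeries.coeff_mk]
        have h0 : JW φ 0 k 0 = ⊥ := by
          unfold JW
          have : {f | ∃ j : Fin n, (j : ℕ) < 0 ∧ f = φ j} = ∅ := by
            ext f; simp
          rw [this, Ideal.span_empty]
          simp
        rw [h0]
        simp
      rw [this]
      simp
    | succ m ih =>
      intro hm
      have ih := ih (by omega)
      rw [Finset.prod_range_succ, dif_pos (show m < n by omega), ← mul_assoc, ← ih]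
      have h1 : gen (fun k => Module.finrank K (JW φ (m + 1) k 0)) +
          gen (fun k => Module.finrank K (JW φ m k (a ⟨m, by omega⟩))) =
          gen (fun k => Module.finrank K (JW φ m k 0)) +
            gen (fun k => Module.finrank K (HW K σ k (a ⟨m, by omega⟩))) := by
        ext k
        rw [map_add, map_add]
        simp only [gen, PowerSeries.coeff_mk]
        have := finrank_JW_succ φ a hφ hR m k (by omega)
        exact_mod_cast this
      rw [gen_JW φ m (a ⟨m, by omega⟩), gen_HW] at h1
      linear_combination -h1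
  rw [h n le_rfl]
  congr 1
  rw [← Fin.prod_univ_eq_prod_range (fun i => if h : i < n then
    (1 - PowerSeries.X ^ (a ⟨i, h⟩) : PowerSeries ℤ) else 1) n]
  refine Finset.prod_congr rfl fun i _ => ?_
  rw [dif_pos i.2]

theorem main_koszul : StKoszul := by
  intro K σ _ _ _ n φ a hφ hR
  have hE := psi_WF (K := K) (σ := σ) a
  have hJ := gen_J φ a hφ hR
  have hz : ∀ p, n < p → gen (fun k => Module.finrank K (WF (K := K) (σ := σ) a p k 0)) = 0 := by
    intro p hp
    ext k
    rw [gen, PowerSeries.coeff_mk, finrank_WF]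
    have : IsEmpty (Fin p ↪o Fin n) := by
      constructor
      intro u
      have := Fintype.card_le_of_injective u u.injective
      simp at this
      omega
    simp
  set z : ℕ → PowerSeries ℤ := fun p => gen (fun k => Module.finrank K (KZ φ a p k)) with hzdef
  set d : ℕ → PowerSeries ℤ :=
    fun p => gen (fun k => Module.finrank K (WF (K := K) (σ := σ) a p k 0)) with hd
  set J : PowerSeries ℤ := gen (fun k => Module.finrank K (JW φ n k 0)) with hJdef
  have r0 : d 0 = z 0 := by
    simp only [hzdef, hd]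
    congr 1
    funext k
    rw [rank_zero]
  have r1 : d 1 = z 1 + J := by
    simp only [hzdef, hd, hJdef]
    ext k
    rw [map_add]
    simp only [gen, PowerSeries.coeff_mk]
    exact_mod_cast rank_step_one φ a hφ k
  have r2 : ∀ p, d (p + 2) = z (p + 2) + z (p + 1) := by
    intro p
    simp only [hzdef, hd]
    ext k
    rw [map_add]
    simp only [gen, PowerSeries.coeff_mk]
    exact_mod_cast rank_step φ a hφ hR p k
  have hH : d 0 = gen (sdim K σ) := by
    simp only [hd]
    have : (fun k => Module.finrank K (WF (K := K) (σ := σ) a 0 k 0)) = sdim K σ := by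
      funext k
      rw [finrank_WF]
      have h1 : ∀ u : Fin 0 ↪o Fin n, Module.finrank K (HW K σ k (∑ j, a (u j))) = sdim K σ k := by
        intro u
        have : ∑ j, a (u j) = 0 := by simp
        rw [this, sdim, HW_eq_of_le (Nat.zero_le k), Nat.sub_zero]
      rw [Finset.sum_congr rfl fun u _ => h1 u, Finset.sum_const, Finset.card_univ]
      have : Fintype.card (Fin 0 ↪o Fin n) = 1 := by
        rw [Fintype.card_eq_one_iff]
        refine ⟨⟨⟨Fin.elim0, fun i => i.elim0⟩, fun {i} => i.elim0⟩, fun y => ?_⟩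
        ext i
        exact i.elim0
      rw [this, one_smul]
    rw [this]
  -- sums
  have s1 : ∑ p ∈ Finset.range (n + 2), d p * (-PowerSeries.X) ^ p =
      gen (sdim K σ) * ∏ i, (1 - PowerSeries.X ^ (a i + 1)) := by
    rw [Finset.sum_range_succ, show d (n + 1) = 0 from hz _ (Nat.lt_succ_self n), zero_mul,
      add_zero]
    exact hE
  have s2 : ∀ N, ∑ p ∈ Finset.range (N + 2), d p * (-PowerSeries.X) ^ p =
      ∑ p ∈ Finset.range (N + 2), z p * (-PowerSeries.X) ^ p -
        PowerSeries.X * (∑ p ∈ Finset.range (N + 1), z p * (-PowerSeries.X) ^ p - z 0 + J) := by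
    intro N
    induction N with
    | zero =>
      simp only [Finset.sum_range_succ, Finset.sum_range_zero, r0, r1]
      ring
    | succ N ih =>
      rw [Finset.sum_range_succ, ih, Finset.sum_range_succ (fun p => z p * _) (N + 1),
        Finset.sum_range_succ (fun p => z p * _) (N + 2),
        Finset.sum_range_succ (fun p => z p * _) (N + 1), r2 N]
      ring
  have hzn : z (n + 1) = 0 := by
    have h1 : d (n + 1) = 0 := hz _ (Nat.lt_succ_self n)
    ext k
    have h2 : d (n + 1) = z (n + 1) + (if n = 0 then J else z n) := by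
      cases n with
      | zero => simpa using r1
      | succ n => simpa using r2 n
    have h3 : Module.finrank K (WF (K := K) (σ := σ) a (n + 1) k 0) = 0 := by
      have := congrArg (PowerSeries.coeff k) h1
      simp only [hd, gen, PowerSeries.coeff_mk, map_zero] at this
      exact_mod_cast this
    simp only [hzdef, gen, PowerSeries.coeff_mk, map_zero]
    have h4 : Module.finrank K (KZ φ a (n + 1) k) ≤
        Module.finrank K (WF (K := K) (σ := σ) a (n + 1) k 0) :=
      Submodule.finrank_mono (KZ_le_WF φ a (n + 1) k)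
    have : Module.finrank K (KZ φ a (n + 1) k) = 0 := by omega
    rw [this]
    simp
  have s3 := s2 n
  rw [s1, Finset.sum_range_succ (fun p => z p * _) (n + 1), hzn, zero_mul, add_zero] at s3
  unfold Psi
  change (1 - PowerSeries.X) * (∑ p ∈ Finset.range (n + 1), z p * (-PowerSeries.X) ^ p) = _
  rw [← r0, hH] at s3
  linear_combination -s3 - PowerSeries.X * hJ

end Pool.Agent.W958.ST
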