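import Pool.Agent.W958.ST.Stms

/-!
# Assembly of project ST
-/

set_option autoImplicit false

namespace Pool.Agent.W958.ST





theorem gen_zero_iff (g : ℕ → ℕ) (h : ∀ k, g k = 0) : gen g = 0 := by
  ext k
  simp [gen, h]

theorem psi_dd_hd {K σ : Type} [Field K] [Fintype σ] [DecidableEq σ] (hE : StEuler)
    (L : Set (σ → K)) (α : σ → K) (hα : α ∈ L) (h0 : α ≠ 0) :
    Psi (fun p k => Module.finrank K (DD L p k)) (Fintype.card σ) =
      (1 - PowerSeries.X ^ 2) * Psi (fun p k => Module.finrank K (HD L α p k))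
        (Fintype.card σ) := by
  obtain ⟨h1, h2, h3, h4, h5⟩ := hE K σ L α hα h0
  have hg0 : gen (fun k => Module.finrank K (DD L 0 k)) =
      gen (fun k => Module.finrank K (HD L α 0 k)) := by
    congr 1
    funext k
    exact h3 k
  have hgp : ∀ p, gen (fun k => Module.finrank K (DD L (p + 1) k)) =
      gen (fun k => Module.finrank K (HD L α (p + 1) k)) +
        PowerSeries.X * gen (fun k => Module.finrank K (HD L α p k)) := by
    intro p
    ext k
    cases k with
    | zero => simp [gen, h2 p]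
    | succ k => simp [gen, h1 p k, PowerSeries.coeff_succ_X_mul]
  have hN : gen (fun k => Module.finrank K (HD L α (Fintype.card σ) k)) = 0 :=
    gen_zero_iff _ fun k => h4 _ k le_rfl
  unfold Psi
  rw [Finset.sum_range_succ' (fun p => gen (fun k => Module.finrank K (DD L p k)) * _)]
  simp only [hg0, hgp]
  have e1 : ∑ k ∈ Finset.range (Fintype.card σ),
      (gen (fun k_1 => Module.finrank K (HD L α (k + 1) k_1)) +
        PowerSeries.X * gen (fun k_1 => Module.finrank K (HD L α k k_1))) *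
          (-PowerSeries.X : PowerSeries ℤ) ^ (k + 1) =
      ∑ k ∈ Finset.range (Fintype.card σ),
        gen (fun k_1 => Module.finrank K (HD L α (k + 1) k_1)) * (-PowerSeries.X) ^ (k + 1) -
      PowerSeries.X ^ 2 * ∑ k ∈ Finset.range (Fintype.card σ),
        gen (fun k_1 => Module.finrank K (HD L α k k_1)) * (-PowerSeries.X) ^ k := by
    rw [Finset.mul_sum, ← Finset.sum_sub_distrib]
    refine Finset.sum_congr rfl fun k _ => ?_
    ring
  rw [e1]
  have e2 := Finset.sum_range_succ'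
    (fun p => gen (fun k => Module.finrank K (HD L α p k)) * (-PowerSeries.X : PowerSeries ℤ) ^ p)
    (Fintype.card σ)
  have e3 := Finset.sum_range_succ
    (fun p => gen (fun k => Module.finrank K (HD L α p k)) * (-PowerSeries.X : PowerSeries ℤ) ^ p)
    (Fintype.card σ)
  rw [hN, zero_mul, add_zero] at e3
  rw [sub_mul, one_mul, e2, ← e3, e2]
  ring

/-- the sequence `C(k+3,3)` -/
noncomputable def H4 : PowerSeries ℤ := gen fun k => (k + 3).choose 3

theorem one_sub_pow_H4 (hS : ∀ k, sdim ℚ (Fin 4) k = (k + 3).choose 3) (h : StSdim) :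
    (1 - PowerSeries.X) ^ 4 * H4 = 1 := by
  have h1 := h ℚ 4
  have h2 : gen (sdim ℚ (Fin 4)) = H4 := by
    unfold H4
    congr 1
    funext k
    exact hS k
  rw [h2] at h1
  exact h1

theorem LT_ne : ∀ α ∈ LT, α ≠ 0 := by
  intro α hα h0
  subst h0
  simp only [LT, Set.mem_insert_iff, Set.mem_singleton_iff] at hα
  rcases hα with h | h | h | h | h | h | h | h | h
  · have := congrFun h 0; simp at this
  · have := congrFun h 1; simp at this
  · have := congrFun h 2; simp at this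
  · have := congrFun h 3; simp at this
  · have := congrFun h 0; simp at this
  · have := congrFun h 2; simp at this
  · have := congrFun h 0; simp at this
  · have := congrFun h 1; simp at this
  · have := congrFun h 0; simp at this

theorem aT_mem : aT ∈ LT := by simp [LT, aT]

theorem psiHT (hE : StEuler) (hD : StTdim) (hH : (1 - PowerSeries.X) ^ 4 * H4 = 1) :
    (1 - PowerSeries.X) ^ 4 * Psi (fun p k => Module.finrank ℚ (HD LT aT p k)) 4 =
      1 - 4 * PowerSeries.X ^ 4 + PowerSeries.X ^ 5 + 4 * PowerSeries.X ^ 7 -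
        PowerSeries.X ^ 6 + PowerSeries.X ^ 6 * (1 - PowerSeries.X) ^ 4 - PowerSeries.X ^ 11 := by
  obtain ⟨d0, d1a, d1b, d1c, d2a, d2b, d3a, d3b⟩ := hD
  have h4 := (hE ℚ (Fin 4) LT aT aT_mem (LT_ne _ aT_mem)).2.2.2.1
  have g0 : gen (fun k => Module.finrank ℚ (HD LT aT 0 k)) = H4 := by
    unfold H4
    congr 1
    funext k
    exact d0 k
  have g4 : gen (fun k => Module.finrank ℚ (HD LT aT 4 k)) = 0 :=
    gen_zero_iff _ fun k => h4 _ k (by simp)
  have g1 : gen (fun k => Module.finrank ℚ (HD LT aT 1 k)) =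
      (4 * PowerSeries.X ^ 3 - PowerSeries.X ^ 4) * H4 := by
    ext k
    have e : (4 * PowerSeries.X ^ 3 - PowerSeries.X ^ 4) * H4 =
      PowerSeries.X ^ 3 * (PowerSeries.C (4 : ℤ) * H4) - PowerSeries.X ^ 4 * H4 := by
      rw [map_ofNat]; ring
    rw [e, map_sub, PowerSeries.coeff_X_pow_mul', PowerSeries.coeff_X_pow_mul', gen, H4, gen,
      PowerSeries.coeff_mk]
    rcases Nat.lt_or_ge k 3 with h | h
    · rw [if_neg (by omega), if_neg (by omega), d1a k h]; simp
    · obtain ⟨j, rfl⟩ : ∃ j, k = j + 3 := ⟨k - 3, by omega⟩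
      rw [if_pos (by omega)]
      cases j with
      | zero =>
        rw [if_neg (by omega), PowerSeries.coeff_C_mul]
        simp [d1b]
      | succ j =>
        rw [if_pos (by omega)]
        have := d1c j
        have e1 : j + 1 + 3 - 3 = j + 1 := by omega
        have e2 : j + 1 + 3 - 4 = j := by omega
        have e3 : j + 1 + 3 = j + 4 := by omega
        simp only [PowerSeries.coeff_C_mul, PowerSeries.coeff_mk, e1, e2]
        rw [e3]
        zify at this
        linarith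
  have g2 : gen (fun k => Module.finrank ℚ (HD LT aT 2 k)) =
      4 * PowerSeries.X ^ 5 * H4 - PowerSeries.X ^ 4 * (H4 - 1) := by
    ext k
    have e : 4 * PowerSeries.X ^ 5 * H4 - PowerSeries.X ^ 4 * (H4 - 1) =
      PowerSeries.X ^ 5 * (PowerSeries.C (4 : ℤ) * H4) - PowerSeries.X ^ 4 * (H4 - 1) := by
      rw [map_ofNat]; ring
    rw [e, map_sub, PowerSeries.coeff_X_pow_mul', PowerSeries.coeff_X_pow_mul', gen, H4, gen,
      PowerSeries.coeff_mk]
    rcases Nat.lt_or_ge k 5 with h | h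
    · rw [if_neg (by omega), d2a k h]
      rcases Nat.lt_or_ge k 4 with h' | h'
      · rw [if_neg (by omega)]; simp
      · obtain rfl : k = 4 := by omega
        simp
    · obtain ⟨j, rfl⟩ : ∃ j, k = j + 5 := ⟨k - 5, by omega⟩
      rw [if_pos (by omega), if_pos (by omega)]
      have := d2b j
      have e1 : j + 5 - 5 = j := by omega
      have e2 : j + 5 - 4 = j + 1 := by omega
      simp only [PowerSeries.coeff_C_mul, map_sub, PowerSeries.coeff_mk, e1, e2,
        PowerSeries.coeff_one]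
      zify at this
      rw [if_neg (by omega)]
      have e3 : j + 1 + 3 = j + 4 := by omega
      rw [e3]
      linarith
  have g3 : gen (fun k => Module.finrank ℚ (HD LT aT 3 k)) = PowerSeries.X ^ 8 * H4 := by
    ext k
    rw [PowerSeries.coeff_X_pow_mul', gen, H4, gen, PowerSeries.coeff_mk]
    rcases Nat.lt_or_ge k 8 with h | h
    · rw [if_neg (by omega), d3a k h]; simp
    · obtain ⟨j, rfl⟩ : ∃ j, k = j + 8 := ⟨k - 8, by omega⟩
      rw [if_pos (by omega), d3b j]
      simp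
  unfold Psi
  simp only [Finset.sum_range_succ, Finset.sum_range_zero, g0, g1, g2, g3, g4]
  linear_combination (1 - PowerSeries.X * (4 * PowerSeries.X ^ 3 - PowerSeries.X ^ 4) +
    PowerSeries.X ^ 2 * (4 * PowerSeries.X ^ 5 - PowerSeries.X ^ 4) - PowerSeries.X ^ 11) * hH

/-- the numerator for `T` -/
noncomputable def NT : PowerSeries ℤ :=
  1 - 4 * PowerSeries.X ^ 4 + PowerSeries.X ^ 5 + 4 * PowerSeries.X ^ 7 -
        PowerSeries.X ^ 6 + PowerSeries.X ^ 6 * (1 - PowerSeries.X) ^ 4 - PowerSeries.X ^ 11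

theorem psiDT (hE : StEuler) (hD : StTdim) (hH : (1 - PowerSeries.X) ^ 4 * H4 = 1) :
    (1 - PowerSeries.X) ^ 4 * Psi (fun p k => Module.finrank ℚ (DD LT p k)) 4 =
      (1 - PowerSeries.X ^ 2) * NT := by
  have h1 := psi_dd_hd hE LT aT aT_mem (LT_ne _ aT_mem)
  rw [Fintype.card_fin] at h1
  rw [h1, NT, ← psiHT hE hD hH]
  ring

theorem ev_apply (b : Fin 4) (c : Fin 3) (i : Fin 12) : ev b c i = if i = idx b c then 1 else 0 := by
  simp [ev, Pi.single_apply]

theorem ev_idx (b b' : Fin 4) (c c' : Fin 3) :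
    ev b c (idx b' c') = if b = b' ∧ c = c' then 1 else 0 := by
  rw [ev_apply]
  congr 1
  simp only [idx, Fin.ext_iff, eq_iff_iff]
  omega

theorem aB_ne : aB ≠ 0 := by
  intro h
  have h2 := congrFun h (idx 0 2)
  simp only [aB, Finset.sum_apply, Pi.add_apply, Pi.sub_apply, Pi.smul_apply, ev_idx,
    Pi.zero_apply] at h2
  simp at h2

theorem aB_mem : aB ∈ LB := Set.mem_insert _ _

theorem LB_ne : ∀ α ∈ LB, α ≠ 0 := by
  intro α hα h0
  rcases hα with h | h
  · exact aB_ne (h ▸ h0)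
  · obtain ⟨b, h⟩ := h
    subst h0
    rcases h with h | h | h | h | h | h
    · have := congrFun h (idx b 2); simp [ev_apply] at this
    · have := congrFun h (idx b 1); simp [ev_apply] at this
    · have := congrFun h (idx b 1); simp [ev_apply, idx] at this
    · have := congrFun h (idx b 0); simp [ev_apply] at this
    · have := congrFun h (idx b 0); simp [ev_apply, idx] at this
    · have := congrFun h (idx b 0); simp [ev_apply, idx] at this

/-- the numerator for `B` -/
noncomputable def NB : PowerSeries ℤ :=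
  (1 - PowerSeries.X ^ 4) ^ 4 * (1 - PowerSeries.X ^ 3) ^ 4 * (1 - PowerSeries.X ^ 2) ^ 4 -
    PowerSeries.X * ((1 - PowerSeries.X ^ 3) ^ 4 * (1 - PowerSeries.X ^ 2) ^ 4 *
      (1 - PowerSeries.X) ^ 4)

theorem psiHB (hF : StFrame) (hK : StKoszul) (hR : StReg) (hS : StSdim) :
    (1 - PowerSeries.X) ^ 13 * Psi (fun p k => Module.finrank ℚ (HD LB aB p k)) 12 = NB := by
  have h1 := hK ℚ (Fin 12) 12 φB dB hR.1 hR.2
  have h2 : (fun p k => Module.finrank ℚ (HD LB aB p k)) =
      (fun p k => Module.finrank ℚ (KZ φB dB p k)) := by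
    funext p k
    exact hF p k
  have h3 := hS ℚ 12
  have e1 : ∏ i : Fin 12, (1 - (PowerSeries.X : PowerSeries ℤ) ^ (dB i + 1)) =
      (1 - PowerSeries.X ^ 4) ^ 4 * (1 - PowerSeries.X ^ 3) ^ 4 * (1 - PowerSeries.X ^ 2) ^ 4 := by
    simp only [Fin.prod_univ_succ, Fin.prod_univ_zero, dB]
    norm_num [Fin.val_succ]
    ring
  have e2 : ∏ i : Fin 12, (1 - (PowerSeries.X : PowerSeries ℤ) ^ (dB i)) =
      (1 - PowerSeries.X ^ 3) ^ 4 * (1 - PowerSeries.X ^ 2) ^ 4 * (1 - PowerSeries.X) ^ 4 := by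
    simp only [Fin.prod_univ_succ, Fin.prod_univ_zero, dB]
    norm_num [Fin.val_succ]
    ring
  rw [e1, e2] at h1
  rw [h2, NB]
  linear_combination (1 - PowerSeries.X) ^ 12 * h1 +
    ((1 - PowerSeries.X ^ 4) ^ 4 * (1 - PowerSeries.X ^ 3) ^ 4 * (1 - PowerSeries.X ^ 2) ^ 4 -
    PowerSeries.X * ((1 - PowerSeries.X ^ 3) ^ 4 * (1 - PowerSeries.X ^ 2) ^ 4 *
      (1 - PowerSeries.X) ^ 4)) * h3

theorem psiDB (hE : StEuler) (hF : StFrame) (hK : StKoszul) (hR : StReg) (hS : StSdim) :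
    (1 - PowerSeries.X) ^ 13 * Psi (fun p k => Module.finrank ℚ (DD LB p k)) 12 =
      (1 - PowerSeries.X ^ 2) * NB := by
  have h1 := psi_dd_hd hE LB aB aB_mem aB_ne
  rw [Fintype.card_fin] at h1
  rw [h1, ← psiHB hF hK hR hS]
  ring

theorem sum_conv {A : Type} [CommRing A] (T B : ℕ → A) (M N : ℕ) (hT : ∀ a, M < a → T a = 0)
    (hB : ∀ a, N < a → B a = 0) :
    ∑ p ∈ Finset.range (M + N + 1), ∑ a ∈ Finset.range (p + 1), T a * B (p - a) =
      (∑ a ∈ Finset.range (M + 1), T a) * ∑ b ∈ Finset.range (N + 1), B b := by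
  classical
  let P : Polynomial A := ∑ a ∈ Finset.range (M + 1), Polynomial.monomial a (T a)
  let Q : Polynomial A := ∑ a ∈ Finset.range (N + 1), Polynomial.monomial a (B a)
  have hP : ∀ a, P.coeff a = T a := by
    intro a
    simp only [P, Polynomial.finsetSum_coeff, Polynomial.coeff_monomial]
    rw [Finset.sum_ite_eq']
    split_ifs with h
    · rfl
    · rw [hT a (by simpa using h)]
  have hQ : ∀ a, Q.coeff a = B a := by
    intro a
    simp only [Q, Polynomial.finsetSum_coeff, Polynomial.coeff_monomial]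
    rw [Finset.sum_ite_eq']
    split_ifs with h
    · rfl
    · rw [hB a (by simpa using h)]
  have hPe : P.eval 1 = ∑ a ∈ Finset.range (M + 1), T a := by
    simp [P, Polynomial.eval_finsetSum]
  have hQe : Q.eval 1 = ∑ a ∈ Finset.range (N + 1), B a := by
    simp [Q, Polynomial.eval_finsetSum]
  have hdeg : (P * Q).natDegree < M + N + 1 := by
    have h1 : P.natDegree ≤ M := by
      rw [Polynomial.natDegree_le_iff_coeff_eq_zero]
      intro a ha
      rw [hP, hT a ha]
    have h2 : Q.natDegree ≤ N := by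
      rw [Polynomial.natDegree_le_iff_coeff_eq_zero]
      intro a ha
      rw [hQ, hB a ha]
    have := Polynomial.natDegree_mul_le (p := P) (q := Q)
    omega
  rw [← hPe, ← hQe, ← Polynomial.eval_mul, Polynomial.eval_eq_sum_range' hdeg]
  refine Finset.sum_congr rfl fun p _ => ?_
  rw [one_pow, mul_one, Polynomial.coeff_mul,
    Finset.Nat.sum_antidiagonal_eq_sum_range_succ (fun i j => P.coeff i * Q.coeff j) p]
  exact Finset.sum_congr rfl fun a _ => by rw [hP, hQ]

theorem psi_conv (t b c : ℕ → ℕ → ℕ) (M N : ℕ) (ht : ∀ p k, M < p → t p k = 0)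
    (hb : ∀ p k, N < p → b p k = 0)
    (hc : ∀ p k, c p k = ∑ a ∈ Finset.range (p + 1), ∑ j ∈ Finset.range (k + 1),
      t a j * b (p - a) (k - j)) : Psi c (M + N) = Psi t M * Psi b N := by
  have hg : ∀ p, gen (c p) = ∑ a ∈ Finset.range (p + 1), gen (t a) * gen (b (p - a)) := by
    intro p
    ext k
    rw [map_sum]
    simp only [gen, PowerSeries.coeff_mk, PowerSeries.coeff_mul, hc]
    push_cast
    refine Finset.sum_congr rfl fun a _ => ?_
    rw [Finset.Nat.sum_antidiagonal_eq_sum_range_succ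
      (fun i j => ((t a i : ℕ) : ℤ) * ((b (p - a) j : ℕ) : ℤ)) k]
  unfold Psi
  rw [← sum_conv (fun a => gen (t a) * (-PowerSeries.X) ^ a)
    (fun a => gen (b a) * (-PowerSeries.X) ^ a) M N]
  · refine Finset.sum_congr rfl fun p _ => ?_
    rw [hg, Finset.sum_mul]
    refine Finset.sum_congr rfl fun a ha => ?_
    have h : p = a + (p - a) := by
      have := Finset.mem_range.mp ha
      omega
    conv_lhs => rw [h, pow_add]
    have h' : a + (p - a) - a = p - a := by omega
    rw [h']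
    ring
  · intro a ha
    rw [gen_zero_iff _ fun k => ht a k ha, zero_mul]
  · intro a ha
    rw [gen_zero_iff _ fun k => hb a k ha, zero_mul]

/-! ### the palindromic polynomial -/

open Polynomial in
/-- `(1 + x + x^2 + x^3)^4 - x^11` divided by `1 + x + x^2 + x^3 + x^4` -/
noncomputable def q1 : Polynomial ℤ :=
  1 + 3 * X + 6 * X ^ 2 + 10 * X ^ 3 + 11 * X ^ 4 + 10 * X ^ 5 + 7 * X ^ 6 + 2 * X ^ 7 + X ^ 8

open Polynomial in
/-- the reverse of `q1` -/
noncomputable def q2 : Polynomial ℤ :=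
  1 + 2 * X + 7 * X ^ 2 + 10 * X ^ 3 + 11 * X ^ 4 + 10 * X ^ 5 + 6 * X ^ 6 + 3 * X ^ 7 + X ^ 8

open Polynomial in
/-- the polynomial `Psi` of the product arrangement -/
noncomputable def fC : Polynomial ℤ :=
  (1 + X) ^ 6 * (1 + X + X ^ 2) ^ 4 * (1 + X + X ^ 2 + X ^ 3 + X ^ 4) * (q1 * q2)

section rev
open Polynomial

theorem reflect_term (N n : ℕ) (h : n ≤ N) (c : ℤ) :
    reflect N (C c * X ^ n) = C c * X ^ (N - n) := by
  rw [reflect_C_mul_X_pow, revAt_le h]

theorem natDegree_q1 : q1.natDegree = 8 := by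
  unfold q1; compute_degree!

theorem natDegree_q2 : q2.natDegree = 8 := by
  unfold q2; compute_degree!

theorem rev_q1 : q1.reverse = q2 := by
  have h : q1 = C 1 * X ^ 0 + C 3 * X ^ 1 + C 6 * X ^ 2 + C 10 * X ^ 3 + C 11 * X ^ 4 +
      C 10 * X ^ 5 + C 7 * X ^ 6 + C 2 * X ^ 7 + C 1 * X ^ 8 := by
    simp [q1]
  rw [reverse, natDegree_q1, h]
  simp only [reflect_add]
  rw [reflect_term 8 0 (by norm_num), reflect_term 8 1 (by norm_num),
    reflect_term 8 2 (by norm_num), reflect_term 8 3 (by norm_num), reflect_term 8 4 (by norm_num),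
    reflect_term 8 5 (by norm_num), reflect_term 8 6 (by norm_num), reflect_term 8 7 (by norm_num),
    reflect_term 8 8 (by norm_num)]
  simp [q2]
  ring

theorem rev_q2 : q2.reverse = q1 := by
  have h : q2 = C 1 * X ^ 0 + C 2 * X ^ 1 + C 7 * X ^ 2 + C 10 * X ^ 3 + C 11 * X ^ 4 +
      C 10 * X ^ 5 + C 6 * X ^ 6 + C 3 * X ^ 7 + C 1 * X ^ 8 := by
    simp [q2]
  rw [reverse, natDegree_q2, h]
  simp only [reflect_add]
  rw [reflect_term 8 0 (by norm_num), reflect_term 8 1 (by norm_num),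
    reflect_term 8 2 (by norm_num), reflect_term 8 3 (by norm_num), reflect_term 8 4 (by norm_num),
    reflect_term 8 5 (by norm_num), reflect_term 8 6 (by norm_num), reflect_term 8 7 (by norm_num),
    reflect_term 8 8 (by norm_num)]
  simp [q1]
  ring

theorem rev_s2 : (1 + X : Polynomial ℤ).reverse = 1 + X := by
  have h : (1 + X : Polynomial ℤ) = C 1 * X ^ 0 + C 1 * X ^ 1 := by simp
  have hd : (1 + X : Polynomial ℤ).natDegree = 1 := by compute_degree!
  rw [reverse, hd, h]
  simp only [reflect_add]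
  rw [reflect_term 1 0 (by norm_num), reflect_term 1 1 (by norm_num)]
  simp
  ring

theorem rev_s3 : (1 + X + X ^ 2 : Polynomial ℤ).reverse = 1 + X + X ^ 2 := by
  have h : (1 + X + X ^ 2 : Polynomial ℤ) = C 1 * X ^ 0 + C 1 * X ^ 1 + C 1 * X ^ 2 := by simp
  have hd : (1 + X + X ^ 2 : Polynomial ℤ).natDegree = 2 := by compute_degree!
  rw [reverse, hd, h]
  simp only [reflect_add]
  rw [reflect_term 2 0 (by norm_num), reflect_term 2 1 (by norm_num),
    reflect_term 2 2 (by norm_num)]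
  simp
  ring

theorem rev_s5 : (1 + X + X ^ 2 + X ^ 3 + X ^ 4 : Polynomial ℤ).reverse =
    1 + X + X ^ 2 + X ^ 3 + X ^ 4 := by
  have h : (1 + X + X ^ 2 + X ^ 3 + X ^ 4 : Polynomial ℤ) = C 1 * X ^ 0 + C 1 * X ^ 1 +
    C 1 * X ^ 2 + C 1 * X ^ 3 + C 1 * X ^ 4 := by simp
  have hd : (1 + X + X ^ 2 + X ^ 3 + X ^ 4 : Polynomial ℤ).natDegree = 4 := by compute_degree!
  rw [reverse, hd, h]
  simp only [reflect_add]
  rw [reflect_term 4 0 (by norm_num), reflect_term 4 1 (by norm_num),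
    reflect_term 4 2 (by norm_num), reflect_term 4 3 (by norm_num), reflect_term 4 4 (by norm_num)]
  simp
  ring

theorem rev_pow (p : Polynomial ℤ) (n : ℕ) (h : p.reverse = p) : (p ^ n).reverse = p ^ n := by
  induction n with
  | zero =>
    rw [pow_zero]
    exact reverse_C 1
  | succ n ih => rw [pow_succ, reverse_mul_of_domain, ih, h]

theorem rev_fC : fC.reverse = fC := by
  unfold fC
  rw [reverse_mul_of_domain, reverse_mul_of_domain, reverse_mul_of_domain, reverse_mul_of_domain,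
    rev_pow _ _ rev_s2, rev_pow _ _ rev_s3, rev_s5, rev_q1, rev_q2]
  ring

theorem fC_ne : fC ≠ 0 := by
  intro h
  have h1 := congrArg (Polynomial.eval 0) h
  simp [fC, q1, q2] at h1

end rev

theorem q1_coe : (q1 : PowerSeries ℤ) = 1 + 3 * PowerSeries.X + 6 * PowerSeries.X ^ 2 +
    10 * PowerSeries.X ^ 3 + 11 * PowerSeries.X ^ 4 + 10 * PowerSeries.X ^ 5 +
    7 * PowerSeries.X ^ 6 + 2 * PowerSeries.X ^ 7 + PowerSeries.X ^ 8 := by
  rw [← Polynomial.coeToPowerSeries.ringHom_apply, q1]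
  simp only [map_add, map_mul, map_pow, map_one, map_ofNat,
    Polynomial.coeToPowerSeries.ringHom_apply, Polynomial.coe_X]

theorem q2_coe : (q2 : PowerSeries ℤ) = 1 + 2 * PowerSeries.X + 7 * PowerSeries.X ^ 2 +
    10 * PowerSeries.X ^ 3 + 11 * PowerSeries.X ^ 4 + 10 * PowerSeries.X ^ 5 +
    6 * PowerSeries.X ^ 6 + 3 * PowerSeries.X ^ 7 + PowerSeries.X ^ 8 := by
  rw [← Polynomial.coeToPowerSeries.ringHom_apply, q2]
  simp only [map_add, map_mul, map_pow, map_one, map_ofNat,
    Polynomial.coeToPowerSeries.ringHom_apply, Polynomial.coe_X]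

theorem fC_coe : (fC : PowerSeries ℤ) = (1 + PowerSeries.X) ^ 6 *
    (1 + PowerSeries.X + PowerSeries.X ^ 2) ^ 4 *
    (1 + PowerSeries.X + PowerSeries.X ^ 2 + PowerSeries.X ^ 3 + PowerSeries.X ^ 4) *
      ((q1 : PowerSeries ℤ) * (q2 : PowerSeries ℤ)) := by
  rw [← Polynomial.coeToPowerSeries.ringHom_apply, fC]
  simp only [map_add, map_mul, map_pow, map_one, 
    Polynomial.coeToPowerSeries.ringHom_apply, Polynomial.coe_X]

theorem NT_eq : NT = (1 - PowerSeries.X) ^ 3 * (q1 : PowerSeries ℤ) := by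
  rw [q1_coe]
  unfold NT
  ring

theorem NB_eq : NB = (1 - PowerSeries.X) ^ 12 * ((1 + PowerSeries.X) ^ 4 *
    (1 + PowerSeries.X + PowerSeries.X ^ 2) ^ 4 *
    (1 + PowerSeries.X + PowerSeries.X ^ 2 + PowerSeries.X ^ 3 + PowerSeries.X ^ 4) *
      (q2 : PowerSeries ℤ)) := by
  have h : (1 + PowerSeries.X + PowerSeries.X ^ 2 + PowerSeries.X ^ 3 + PowerSeries.X ^ 4) *
      (q2 : PowerSeries ℤ) = (1 + PowerSeries.X + PowerSeries.X ^ 2 + PowerSeries.X ^ 3) ^ 4 -
        PowerSeries.X := by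
    rw [q2_coe]
    ring
  have e4 : (1 - PowerSeries.X ^ 4 : PowerSeries ℤ) = (1 - PowerSeries.X) *
      (1 + PowerSeries.X + PowerSeries.X ^ 2 + PowerSeries.X ^ 3) := by ring
  have e3 : (1 - PowerSeries.X ^ 3 : PowerSeries ℤ) = (1 - PowerSeries.X) *
      (1 + PowerSeries.X + PowerSeries.X ^ 2) := by ring
  have e2 : (1 - PowerSeries.X ^ 2 : PowerSeries ℤ) = (1 - PowerSeries.X) *
      (1 + PowerSeries.X) := by ring
  have e5 : (1 + PowerSeries.X) ^ 4 * (1 + PowerSeries.X + PowerSeries.X ^ 2) ^ 4 *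
    (1 + PowerSeries.X + PowerSeries.X ^ 2 + PowerSeries.X ^ 3 + PowerSeries.X ^ 4) *
      (q2 : PowerSeries ℤ) = (1 + PowerSeries.X) ^ 4 *
      (1 + PowerSeries.X + PowerSeries.X ^ 2) ^ 4 *
      ((1 + PowerSeries.X + PowerSeries.X ^ 2 + PowerSeries.X ^ 3) ^ 4 - PowerSeries.X) := by
    rw [← h]
    ring
  rw [e5, NB, e4, e3, e2]
  generalize (1 + PowerSeries.X + PowerSeries.X ^ 2 + PowerSeries.X ^ 3 : PowerSeries ℤ) = s4
  generalize (1 + PowerSeries.X + PowerSeries.X ^ 2 : PowerSeries ℤ) = s3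
  generalize (1 + PowerSeries.X : PowerSeries ℤ) = s2
  generalize (1 - PowerSeries.X : PowerSeries ℤ) = s1
  ring

theorem psiC (hE : StEuler) (hD : StTdim) (hF : StFrame) (hK : StKoszul) (hR : StReg)
    (hS : StSdim) (hH : (1 - PowerSeries.X) ^ 4 * H4 = 1) (hP : StProd) :
    (fC : PowerSeries ℤ) =
      Psi (fun p k => Module.finrank ℚ (DD (prodArr LT LB) p k)) 16 := by
  have hT := psiDT hE hD hH
  have hB := psiDB hE hF hK hR hS
  have hC := psi_conv (fun p k => Module.finrank ℚ (DD LT p k))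
    (fun p k => Module.finrank ℚ (DD LB p k))
    (fun p k => Module.finrank ℚ (DD (prodArr LT LB) p k)) 4 12
    (fun p k hp => (hE ℚ (Fin 4) LT aT aT_mem (LT_ne _ aT_mem)).2.2.2.2 p k (by simpa using hp))
    (fun p k hp => (hE ℚ (Fin 12) LB aB aB_mem aB_ne).2.2.2.2 p k (by simpa using hp))
    (fun p k => hP ℚ 4 12 LT LB p k)
  have h1 : (1 - PowerSeries.X : PowerSeries ℤ) ≠ 0 := by
    intro h
    have := congrArg (PowerSeries.coeff 0) h
    simp at this
  have h17 : (1 - PowerSeries.X : PowerSeries ℤ) ^ 17 ≠ 0 := pow_ne_zero _ h1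
  apply mul_left_cancel₀ h17
  rw [show (16 : ℕ) = 4 + 12 from rfl, hC, fC_coe]
  have e2 : (1 - PowerSeries.X ^ 2 : PowerSeries ℤ) = (1 - PowerSeries.X) *
      (1 + PowerSeries.X) := by ring
  rw [NT_eq, e2] at hT
  rw [NB_eq, e2] at hB
  have h3 : (1 - PowerSeries.X : PowerSeries ℤ) ^ 17 *
      (Psi (fun p k => Module.finrank ℚ (DD LT p k)) 4 *
        Psi (fun p k => Module.finrank ℚ (DD LB p k)) 12) =
      ((1 - PowerSeries.X) ^ 4 * Psi (fun p k => Module.finrank ℚ (DD LT p k)) 4) *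
      ((1 - PowerSeries.X) ^ 13 * Psi (fun p k => Module.finrank ℚ (DD LB p k)) 12) := by
    ring
  rw [h3, hT, hB]
  ring

end Pool.Agent.W958.ST
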