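import Mathlib

/-!
# Multi-derivations of hyperplane arrangements (project ST, problem MP_fe1391_co)

`MvPolynomial σ K` is the coordinate ring; a hyperplane is given by a covector `α : σ → K`
(linear form `lin α`). A multi-derivation of degree `p` is an alternating `S`-multilinear form `ω`
on `S^σ` (the values `ω(dx_{i_1}, .., dx_{i_p})`).
-/

set_option autoImplicit false

namespace Pool.Agent.W958.ST

open MvPolynomial

/-- the linear form with coefficient vector `α` -/
noncomputable def lin {K σ : Type} [Field K] [Fintype σ] (α : σ → K) : MvPolynomial σ K :=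
  ∑ i, C (α i) * X i

/-- the covector `α` as a vector with constant polynomial entries -/
noncomputable def cv {K σ : Type} [Field K] (α : σ → K) : σ → MvPolynomial σ K := fun i => C (α i)

/-- alternating `S`-multilinear forms in `p` arguments on `S^ι`, `S = K[σ]` -/
abbrev Alt (σ K : Type) [Field K] (ι : Type) (p : ℕ) : Type :=
  AlternatingMap (MvPolynomial σ K) (ι → MvPolynomial σ K) (MvPolynomial σ K) (Fin p)

/-- the homogeneous logarithmic multi-derivations of degree `k` with `p` arguments -/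
noncomputable def DD {K σ : Type} [Field K] [Fintype σ] [DecidableEq σ] (L : Set (σ → K)) (p k : ℕ) :
    Submodule K (Alt σ K σ p) where
  carrier := {ω | (∀ α ∈ L, ∀ (v : Fin p → (σ → MvPolynomial σ K)) (j : Fin p), v j = cv α →
      lin α ∣ ω v) ∧
    ∀ w : Fin p → σ, (ω (fun j => Pi.single (w j) 1)).IsHomogeneous k}
  add_mem' := by
    intro a b ha hb
    refine ⟨fun α hα v j hv => ?_, fun w => ?_⟩
    · rw [AlternatingMap.add_apply]
      exact dvd_add (ha.1 α hα v j hv) (hb.1 α hα v j hv)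
    · rw [AlternatingMap.add_apply]
      exact (ha.2 w).add (hb.2 w)
  zero_mem' := by
    refine ⟨fun α _ v j _ => ?_, fun w => ?_⟩
    · simp
    · simpa using isHomogeneous_zero σ K k
  smul_mem' := by
    intro c a ha
    refine ⟨fun α hα v j hv => ?_, fun w => ?_⟩
    · rw [AlternatingMap.smul_apply, MvPolynomial.smul_eq_C_mul]
      exact Dvd.dvd.mul_left (ha.1 α hα v j hv) _
    · rw [AlternatingMap.smul_apply, MvPolynomial.smul_eq_C_mul]
      simpa using (isHomogeneous_C σ c).mul (ha.2 w)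

/-- the elements of `DD L p k` which are killed by the contraction with `α` -/
noncomputable def HD {K σ : Type} [Field K] [Fintype σ] [DecidableEq σ] (L : Set (σ → K))
    (α : σ → K) (p k : ℕ) : Submodule K (Alt σ K σ p) where
  carrier := {ω | ω ∈ DD L p k ∧ ∀ (v : Fin p → (σ → MvPolynomial σ K)) (j : Fin p),
      v j = cv α → ω v = 0}
  add_mem' := by
    intro a b ha hb
    refine ⟨add_mem ha.1 hb.1, fun v j hv => ?_⟩
    rw [AlternatingMap.add_apply, ha.2 v j hv, hb.2 v j hv, add_zero]
  zero_mem' := ⟨zero_mem _, fun v j _ => by simp⟩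
  smul_mem' := by
    intro c a ha
    refine ⟨Submodule.smul_mem _ c ha.1, fun v j hv => ?_⟩
    rw [AlternatingMap.smul_apply, ha.2 v j hv, smul_zero]

/-- `f` is homogeneous of degree `k - A` (and zero if `k < A`) -/
def HomW {K σ : Type} [Field K] (f : MvPolynomial σ K) (k A : ℕ) : Prop :=
  (A ≤ k → f.IsHomogeneous (k - A)) ∧ (k < A → f = 0)

theorem HomW.zero {K σ : Type} [Field K] (k A : ℕ) : HomW (0 : MvPolynomial σ K) k A :=
  ⟨fun _ => isHomogeneous_zero σ K _, fun _ => rfl⟩

theorem HomW.add {K σ : Type} [Field K] {f g : MvPolynomial σ K} {k A : ℕ} (hf : HomW f k A)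
    (hg : HomW g k A) : HomW (f + g) k A :=
  ⟨fun h => (hf.1 h).add (hg.1 h), fun h => by rw [hf.2 h, hg.2 h, add_zero]⟩

theorem HomW.smul {K σ : Type} [Field K] {f : MvPolynomial σ K} {k A : ℕ} (c : K)
    (hf : HomW f k A) : HomW (c • f) k A := by
  refine ⟨fun h => ?_, fun h => by rw [hf.2 h, smul_zero]⟩
  rw [MvPolynomial.smul_eq_C_mul]
  simpa using (isHomogeneous_C σ c).mul (hf.1 h)

/-- Koszul cycles: alternating forms `ω` on `S^n`, of weight `k` when the `i`-th basis vector has
weight `a i`, with `ω(φ, ..) = 0` -/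
noncomputable def KZ {K σ : Type} [Field K] {n : ℕ} (φ : Fin n → MvPolynomial σ K) (a : Fin n → ℕ)
    (p k : ℕ) : Submodule K (Alt σ K (Fin n) p) where
  carrier := {ω | (∀ w : Fin p → Fin n, HomW (ω (fun j => Pi.single (w j) 1)) k (∑ j, a (w j))) ∧
    ∀ (v : Fin p → (Fin n → MvPolynomial σ K)) (j : Fin p), v j = φ → ω v = 0}
  add_mem' := by
    intro x y hx hy
    refine ⟨fun w => ?_, fun v j hv => ?_⟩
    · rw [AlternatingMap.add_apply]; exact (hx.1 w).add (hy.1 w)
    · rw [AlternatingMap.add_apply, hx.2 v j hv, hy.2 v j hv, add_zero]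
  zero_mem' := ⟨fun w => by simpa using HomW.zero _ _, fun v j _ => by simp⟩
  smul_mem' := by
    intro c x hx
    refine ⟨fun w => ?_, fun v j hv => ?_⟩
    · rw [AlternatingMap.smul_apply]; exact (hx.1 w).smul c
    · rw [AlternatingMap.smul_apply, hx.2 v j hv, smul_zero]

/-- number of monomials of degree `k` -/
noncomputable def sdim (K σ : Type) [Field K] (k : ℕ) : ℕ :=
  Module.finrank K (homogeneousSubmodule σ K k)

/-- weak regularity of the sequence `φ 0, φ 1, ...` -/
def Reg {K σ : Type} [Field K] {n : ℕ} (φ : Fin n → MvPolynomial σ K) : Prop :=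
  ∀ (m : Fin n) (b : MvPolynomial σ K), φ m * b ∈ Ideal.span {f | ∃ j, j < m ∧ f = φ j} →
    b ∈ Ideal.span {f | ∃ j, j < m ∧ f = φ j}

/-! ### the two arrangements -/

/-- the cographic arrangement of `K_{3,3}`: the entries of the 3 × 3 matrices with vanishing row and
column sums, in the coordinates `a, b, c, d = X 0, X 1, X 2, X 3` (upper left 2 × 2 block) -/
def LT : Set (Fin 4 → ℚ) :=
  {![1, 0, 0, 0], ![0, 1, 0, 0], ![0, 0, 1, 0], ![0, 0, 0, 1], ![1, 1, 0, 0], ![0, 0, 1, 1],
    ![1, 0, 1, 0], ![0, 1, 0, 1], ![1, 1, 1, 1]}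

/-- the hyperplane `d = 0` -/
def aT : Fin 4 → ℚ := ![0, 0, 0, 1]

/-- the coordinate number `c` of block `b` (`0 = y, 1 = x, 2 = t`) -/
def idx (b : Fin 4) (c : Fin 3) : Fin 12 := ⟨3 * b.1 + c.1, by omega⟩

/-- covector of the coordinate `c` of block `b` -/
def ev (b : Fin 4) (c : Fin 3) : Fin 12 → ℚ := Pi.single (idx b c) 1

/-- the generic hyperplane `∑_b (t_b - 2 x_b + 2 y_b) = 0` -/
def aB : Fin 12 → ℚ := ∑ b, (ev b 2 - 2 • ev b 1 + 2 • ev b 0)

/-- the four blocks `{t; x, x - t; y, y - t, y + t}` -/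
def LA : Set (Fin 12 → ℚ) :=
  {α | ∃ b, α = ev b 2 ∨ α = ev b 1 ∨ α = ev b 1 - ev b 2 ∨ α = ev b 0 ∨ α = ev b 0 - ev b 2 ∨
    α = ev b 0 + ev b 2}

/-- the arrangement `B`: the four blocks and the generic hyperplane -/
def LB : Set (Fin 12 → ℚ) := insert aB LA

/-- the regular sequence: `-6 y_b ^ 3`, `2 x_b ^ 2 - 4 x_b y_b`, `t_b - 2 x_b + 2 y_b` -/
noncomputable def φB (i : Fin 12) : MvPolynomial (Fin 12) ℚ :=
  let b : Fin 4 := ⟨i.1 / 3, by omega⟩
  if i.1 % 3 = 0 then -6 * X (idx b 0) ^ 3
  else if i.1 % 3 = 1 then 2 * X (idx b 1) ^ 2 - 4 * X (idx b 1) * X (idx b 0)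
  else X (idx b 2) - 2 * X (idx b 1) + 2 * X (idx b 0)

/-- the degrees of `φB` -/
def dB (i : Fin 12) : ℕ := 3 - i.1 % 3

/-- product of arrangements -/
def prodArr {K : Type} [Field K] {m n : ℕ} (L1 : Set (Fin m → K)) (L2 : Set (Fin n → K)) :
    Set (Fin (m + n) → K) :=
  (fun α => Fin.append α 0) '' L1 ∪ (fun β => Fin.append 0 β) '' L2

/-- the hyperplane of a covector -/
def hyp {K : Type} [Field K] {n : ℕ} (α : Fin n → K) : Submodule K (Fin n → K) :=
  LinearMap.ker (∑ i, α i • (LinearMap.proj i : (Fin n → K) →ₗ[K] K))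

/-- the set of the frozen statement (multi-derivations) -/
def FS {K : Type} [Field K] {ℓ : ℕ} (A : Finset (Submodule K (Fin ℓ → K))) (p k : ℕ) :
    Set (AlternatingMap K (MvPolynomial (Fin ℓ) K) (MvPolynomial (Fin ℓ) K) (Fin p)) :=
  {θ : AlternatingMap K (MvPolynomial (Fin ℓ) K) (MvPolynomial (Fin ℓ) K) (Fin p) |
                        (∀ (v : Fin p → MvPolynomial (Fin ℓ) K) (j : Fin p)
                            (u w : MvPolynomial (Fin ℓ) K),
                            θ (Function.update v j (u * w)) =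
                              u * θ (Function.update v j w) + w * θ (Function.update v j u)) ∧
                        (∀ H ∈ A, ∀ a : Module.Dual K (Fin ℓ → K), LinearMap.ker a = H →
                            ∀ (v : Fin p → MvPolynomial (Fin ℓ) K) (j : Fin p),
                              v j = (∑ i : Fin ℓ, MvPolynomial.C (a (Pi.single i 1)) * MvPolynomial.X i) →
                              (∑ i : Fin ℓ, MvPolynomial.C (a (Pi.single i 1)) * MvPolynomial.X i) ∣ θ v) ∧
                        (∀ w : Fin p → Fin ℓ,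
                            (θ (fun j => MvPolynomial.X (w j))).IsHomogeneous k)}

/-- the set of the frozen statement (derivations) -/
def FD {K : Type} [Field K] {ℓ : ℕ} (A : Finset (Submodule K (Fin ℓ → K))) :
    Set (Derivation K (MvPolynomial (Fin ℓ) K) (MvPolynomial (Fin ℓ) K)) :=
  {θ : Derivation K (MvPolynomial (Fin ℓ) K) (MvPolynomial (Fin ℓ) K) |
              ∀ H ∈ A, ∀ a : Module.Dual K (Fin ℓ → K), LinearMap.ker a = H →
                (∑ i : Fin ℓ, MvPolynomial.C (a (Pi.single i 1)) * MvPolynomial.X i) ∣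
                  θ (∑ i : Fin ℓ, MvPolynomial.C (a (Pi.single i 1)) * MvPolynomial.X i)}

end Pool.Agent.W958.ST
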