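import Pool.Agent.W958.ST.Euler

/-!
# Weighted changes of frame for alternating forms (project ST)
-/

set_option autoImplicit false

namespace Pool.Agent.W958.ST

open MvPolynomial

variable {K σ : Type} [Field K]

theorem HomW.mul' {f g : MvPolynomial σ K} {k1 k2 A1 A2 : ℕ} (hf : HomW f k1 A1)
    (hg : HomW g k2 A2) : HomW (f * g) (k1 + k2) (A1 + A2) := by
  by_cases h1 : k1 < A1
  · rw [hf.2 h1, zero_mul]; exact HomW.zero _ _
  by_cases h2 : k2 < A2
  · rw [hg.2 h2, mul_zero]; exact HomW.zero _ _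
  refine ⟨fun _ => ?_, fun h => absurd h (by omega)⟩
  have := (hf.1 (by omega)).mul (hg.1 (by omega))
  have e : k1 - A1 + (k2 - A2) = k1 + k2 - (A1 + A2) := by omega
  rwa [e] at this

theorem HomW.prod {ι : Type} (s : Finset ι) (f : ι → MvPolynomial σ K) (k A : ι → ℕ)
    (h : ∀ i ∈ s, HomW (f i) (k i) (A i)) : HomW (∏ i ∈ s, f i) (∑ i ∈ s, k i) (∑ i ∈ s, A i) := by
  classical
  induction s using Finset.induction_on with
  | empty =>
    simp only [Finset.prod_empty, Finset.sum_empty]
    rw [homW_zero_right]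
    exact isHomogeneous_one σ K
  | insert i s hi ih =>
    rw [Finset.prod_insert hi, Finset.sum_insert hi, Finset.sum_insert hi]
    exact (h i (Finset.mem_insert_self i s)).mul'
      (ih fun j hj => h j (Finset.mem_insert_of_mem hj))

theorem HomW.cancel {f : MvPolynomial σ K} {B k C : ℕ} (h : HomW f (B + k) (B + C)) :
    HomW f k C := by
  refine ⟨fun h1 => ?_, fun h1 => h.2 (by omega)⟩
  have := h.1 (by omega)
  have e : B + k - (B + C) = k - C := by omega
  rwa [e] at this

theorem HomW.of_mul {F g : MvPolynomial σ K} {k A D : ℕ} (hF : F.IsHomogeneous D) (hF0 : F ≠ 0)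
    (h : HomW (F * g) k A) : HomW g k (A + D) := by
  constructor
  · intro h1
    apply hom_of_mul hF hF0
    have := h.1 (by omega)
    have e : D + (k - (A + D)) = k - A := by omega
    rwa [e]
  · intro h1
    have h0 : F * g = 0 := by
      by_cases h2 : k < A
      · exact h.2 h2
      · have h3 := hcomp_mul (g := g) hF (k - A)
        rw [if_neg (by omega), mul_zero, homogeneousComponent_eq_self (h.1 (by omega))] at h3
        exact h3
    exact (mul_eq_zero.mp h0).resolve_left hF0

variable {n : ℕ} {p k : ℕ}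

/-- weighted homogeneous changes of variables -/
theorem comp_wt (P : (Fin n → MvPolynomial σ K) →ₗ[MvPolynomial σ K] (Fin n → MvPolynomial σ K))
    (a b : Fin n → ℕ) (hP : ∀ i j, HomW (P (Pi.single i 1) j) (b j) (a i))
    {ω : Alt σ K (Fin n) p} (h : ω ∈ WF b p k 0) : ω.compLinearMap P ∈ WF a p k 0 := by
  intro w
  rw [AlternatingMap.compLinearMap_apply, expand_single, ← mem_HW]
  refine Submodule.sum_mem _ fun u _ => ?_
  have h1 : HomW (∏ j, P (Pi.single (w j) 1) (u j)) (∑ j, b (u j)) (∑ j, a (w j)) :=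
    HomW.prod _ _ _ _ fun j _ => hP (w j) (u j)
  have h2 := h1.mul' (h u)
  have h3 : HomW ((∏ j, P (Pi.single (w j) 1) (u j)) * ω (fun j => Pi.single (u j) 1))
      (∑ j, b (u j) + k) (∑ j, b (u j) + (0 + ∑ j, a (w j))) := by
    have e : ∑ j, a (w j) + (0 + ∑ j, b (u j)) = ∑ j, b (u j) + (0 + ∑ j, a (w j)) := by omega
    rw [← e]
    exact h2
  exact h3.cancel

/-- the diagonal map -/
def dg {R : Type*} [CommRing R] {n : ℕ} (f : Fin n → R) : (Fin n → R) →ₗ[R] (Fin n → R) where
  toFun v i := f i * v i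
  map_add' x y := by funext i; exact mul_add _ _ _
  map_smul' c x := by
    funext i
    simp only [Pi.smul_apply, smul_eq_mul, RingHom.id_apply]
    ring

theorem dg_apply {R : Type*} [CommRing R] {n : ℕ} (f v : Fin n → R) (i : Fin n) :
    dg f v i = f i * v i := rfl

theorem dg_single {R : Type*} [CommRing R] {n : ℕ} (f : Fin n → R) (i : Fin n) :
    dg f (Pi.single i 1) = f i • Pi.single i 1 := by
  funext j
  rw [dg_apply, Pi.smul_apply, smul_eq_mul, Pi.single_apply]
  split_ifs with h
  · rw [h]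
  · simp

/-- division by a diagonal map -/
theorem exists_diag [Finite σ] (f : Fin n → MvPolynomial σ K) (hf0 : ∀ i, f i ≠ 0)
    (hrel : ∀ i j, i ≠ j → IsRelPrime (f i) (f j)) (a d : Fin n → ℕ)
    (hd : ∀ i, (f i).IsHomogeneous (d i)) {ω : Alt σ K (Fin n) p} (h : ω ∈ WF a p k 0)
    (hdiv : ∀ i (v : Fin p → (Fin n → MvPolynomial σ K)) j, v j = Pi.single i 1 → f i ∣ ω v) :
    ∃ ω' : Alt σ K (Fin n) p, ω' ∈ WF (fun i => a i + d i) p k 0 ∧
      ω = ω'.compLinearMap (dg f) := by
  have h1 : ∀ u : Fin p ↪o Fin n, ∏ j, f (u j) ∣ ω (fun j => Pi.single (u j) 1) := by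
    intro u
    apply Fintype.prod_dvd_of_isRelPrime
    · intro i j hij
      exact hrel _ _ (fun h => hij (u.injective h))
    · intro j
      exact hdiv (u j) _ j rfl
  choose g hg using h1
  obtain ⟨ω', hω'⟩ := exists_incr (n := p) (Pi.basisFun (MvPolynomial σ K) (Fin n)) g
  simp only [Pi.basisFun_apply] at hω'
  refine ⟨ω', ?_, ?_⟩
  · rw [mem_WF_iff_incr]
    intro u
    rw [hω' u, Finset.sum_add_distrib]
    have hF : (∏ j, f (u j)).IsHomogeneous (∑ j, d (u j)) :=
      IsHomogeneous.prod _ _ _ fun j _ => hd (u j)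
    have hF0 : (∏ j, f (u j)) ≠ 0 := Finset.prod_ne_zero_iff.mpr fun j _ => hf0 _
    apply HomW.of_mul hF hF0
    rw [← hg u]
    exact (mem_WF_iff_incr a p k ω).mp h u
  · apply ext_incr (Pi.basisFun (MvPolynomial σ K) (Fin n))
    intro u
    simp only [Pi.basisFun_apply]
    rw [AlternatingMap.compLinearMap_apply, hg u, ← hω' u]
    simp only [dg_single]
    have h2 := ω'.toMultilinearMap.map_smul_univ (fun j => f (u j))
      (fun j => (Pi.single (u j) 1 : Fin n → MvPolynomial σ K))
    rw [AlternatingMap.coe_multilinearMap] at h2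
    rw [h2, smul_eq_mul]

theorem relprime_of_minor [Fintype σ] {β γ : σ → K} (i j : σ) (h : β i * γ j ≠ β j * γ i) :
    IsRelPrime (lin β) (lin γ) := by
  have hβ : β ≠ 0 := by
    rintro rfl
    simp at h
  have hγ : γ ≠ 0 := by
    rintro rfl
    simp at h
  rw [(lin_prime hβ).irreducible.isRelPrime_iff_not_dvd]
  intro hd
  obtain ⟨c, hc⟩ := lin_dvd_lin hγ hd
  apply h
  have hi : β i = c * γ i := by
    have := congrFun hc i
    simp only [cv, Pi.smul_apply, smul_eq_mul, ← C_mul] at this
    exact C_injective _ _ this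
  have hj : β j = c * γ j := by
    have := congrFun hc j
    simp only [cv, Pi.smul_apply, smul_eq_mul, ← C_mul] at this
    exact C_injective _ _ this
  rw [hi, hj]
  ring

end Pool.Agent.W958.ST
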