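import Pool.Agent.W958.ST.Base

/-!
# Finite dimensionality (project ST)
-/

set_option autoImplicit false

namespace Pool.Agent.W958.ST

open MvPolynomial

variable {K σ ι : Type} [Field K] [Fintype σ] [DecidableEq σ] [Fintype ι] [DecidableEq ι]

theorem finite_homog (k : ℕ) : Module.Finite K (homogeneousSubmodule σ K k) := by
  rw [homogeneousSubmodule_eq_finsupp_supported, AddMonoidAlgebra.supported_eq_span_single]
  apply Module.Finite.span_of_finite
  apply Set.Finite.image
  have hs : {d : σ →₀ ℕ | d.degree = k} =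
      ((Finset.univ.finsuppAntidiag k : Finset (σ →₀ ℕ)) : Set (σ →₀ ℕ)) := by
    ext d
    simp only [Set.mem_ofPred_eq, Finset.mem_coe, Finset.mem_finsuppAntidiag, Finset.subset_univ,
      and_true]
    rw [Finsupp.degree_eq_sum]
  rw [hs]
  exact Finset.finite_toSet _

/-- the space of polynomials of degree `k - A` (zero if `k < A`) -/
noncomputable def HW (K σ : Type) [Field K] (k A : ℕ) : Submodule K (MvPolynomial σ K) where
  carrier := {f | HomW f k A}
  add_mem' := fun ha hb => ha.add hb
  zero_mem' := HomW.zero _ _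
  smul_mem' := fun c _ h => h.smul c

omit [Fintype σ] [DecidableEq σ] in
theorem mem_HW {k A : ℕ} {f : MvPolynomial σ K} : f ∈ HW K σ k A ↔ HomW f k A := Iff.rfl

theorem HW_eq_of_le {k A : ℕ} (h : A ≤ k) : HW K σ k A = homogeneousSubmodule σ K (k - A) := by
  ext f
  rw [mem_HW, mem_homogeneousSubmodule]
  exact ⟨fun h1 => h1.1 h, fun h1 => ⟨fun _ => h1, fun h2 => absurd h2 (by omega)⟩⟩

theorem HW_eq_of_lt {k A : ℕ} (h : k < A) : HW K σ k A = ⊥ := by
  ext f
  rw [mem_HW, Submodule.mem_bot]
  exact ⟨fun h1 => h1.2 h, fun h1 => h1 ▸ HomW.zero _ _⟩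

instance finite_HW (k A : ℕ) : Module.Finite K (HW K σ k A) := by
  rcases Nat.lt_or_ge k A with h | h
  · rw [HW_eq_of_lt h]; infer_instance
  · rw [HW_eq_of_le h]; exact finite_homog _

omit [Fintype σ] [DecidableEq σ] in
theorem HomW.mul_left {g f : MvPolynomial σ K} {k A c : ℕ} (hg : g.IsHomogeneous c)
    (hf : HomW f k (A + c)) : HomW (g * f) k A := by
  constructor
  · intro h
    rcases Nat.lt_or_ge k (A + c) with h1 | h1
    · rw [hf.2 h1, mul_zero]; exact isHomogeneous_zero σ K _
    · have := hg.mul (hf.1 h1)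
      have e : c + (k - (A + c)) = k - A := by omega
      rwa [e] at this
  · intro h
    rw [hf.2 (by omega), mul_zero]

/-- forms of weight `k` (with shift `A`) -/
noncomputable def WF (a : ι → ℕ) (p k A : ℕ) : Submodule K (Alt σ K ι p) where
  carrier := {ω | ∀ w : Fin p → ι, HomW (ω (fun j => Pi.single (w j) 1)) k (A + ∑ j, a (w j))}
  add_mem' := by
    intro x y hx hy w
    rw [AlternatingMap.add_apply]; exact (hx w).add (hy w)
  zero_mem' := fun w => by simpa using HomW.zero _ _
  smul_mem' := by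
    intro c x hx w
    rw [AlternatingMap.smul_apply]; exact (hx w).smul c

omit [Fintype σ] [DecidableEq σ] [Fintype ι] in
theorem mem_WF {a : ι → ℕ} {p k A : ℕ} {ω : Alt σ K ι p} : ω ∈ WF a p k A ↔
    ∀ w : Fin p → ι, HomW (ω (fun j => Pi.single (w j) 1)) k (A + ∑ j, a (w j)) := Iff.rfl

instance finite_WF (a : ι → ℕ) (p k A : ℕ) :
    Module.Finite K (WF (K := K) (σ := σ) a p k A) := by
  let f : WF (K := K) (σ := σ) a p k A →ₗ[K] ((w : Fin p → ι) → HW K σ k (A + ∑ j, a (w j))) :=
    { toFun := fun ω w => ⟨ω.1 (fun j => Pi.single (w j) 1), ω.2 w⟩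
      map_add' := fun x y => by
        funext w
        apply Subtype.ext
        simp
      map_smul' := fun c x => by
        funext w
        apply Subtype.ext
        simp }
  apply Module.Finite.of_injective f
  intro x y h
  apply Subtype.ext
  apply ext_single
  intro w
  have := congrFun h w
  exact congrArg Subtype.val this

omit [Fintype σ] [DecidableEq σ] in
theorem KZ_le_WF {n : ℕ} (φ : Fin n → MvPolynomial σ K) (a : Fin n → ℕ) (p k : ℕ) :
    KZ φ a p k ≤ WF a p k 0 := by
  intro ω h w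
  rw [zero_add]
  exact h.1 w

instance finite_KZ {n : ℕ} (φ : Fin n → MvPolynomial σ K) (a : Fin n → ℕ) (p k : ℕ) :
    Module.Finite K (KZ φ a p k) :=
  Submodule.finiteDimensional_of_le (KZ_le_WF φ a p k)

omit [Fintype σ] [DecidableEq σ] in
theorem homW_zero_right {f : MvPolynomial σ K} {k : ℕ} : HomW f k 0 ↔ f.IsHomogeneous k :=
  ⟨fun h => by simpa using h.1 (Nat.zero_le _), fun h => ⟨fun _ => by simpa using h,
    fun h1 => absurd h1 (by omega)⟩⟩

theorem DD_le_WF (L : Set (σ → K)) (p k : ℕ) : DD L p k ≤ WF (fun _ => 0) p k 0 := by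
  intro ω h w
  have : (0 + ∑ j : Fin p, (fun _ : σ => 0) (w j)) = 0 := by simp
  rw [this, homW_zero_right]
  exact h.2 w

instance finite_DD (L : Set (σ → K)) (p k : ℕ) : Module.Finite K (DD L p k) :=
  Submodule.finiteDimensional_of_le (DD_le_WF L p k)

theorem HD_le_DD (L : Set (σ → K)) (α : σ → K) (p k : ℕ) : HD L α p k ≤ DD L p k :=
  fun _ h => h.1

instance finite_HD (L : Set (σ → K)) (α : σ → K) (p k : ℕ) : Module.Finite K (HD L α p k) :=
  Submodule.finiteDimensional_of_le (HD_le_DD L α p k)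

end Pool.Agent.W958.ST
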