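import Pool.Agent.W958.ST.Diag

/-!
# The frame of the four blocks (project ST)
-/

set_option autoImplicit false

namespace Pool.Agent.W958.ST

open MvPolynomial

/-- the coordinate ring of `B` -/
abbrev SB : Type := MvPolynomial (Fin 12) ℚ

theorem idx_surj (i : Fin 12) : ∃ b c, i = idx b c :=
  ⟨⟨i.1 / 3, by omega⟩, ⟨i.1 % 3, by omega⟩, by simp only [idx, Fin.ext_iff]; omega⟩

theorem idx_inj {b b' : Fin 4} {c c' : Fin 3} (h : idx b c = idx b' c') : b = b' ∧ c = c' := by
  simp only [idx, Fin.ext_iff] at h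
  constructor
  · apply Fin.ext; omega
  · apply Fin.ext; omega

theorem idx_eq_iff (b b' : Fin 4) (c c' : Fin 3) : idx b c = idx b' c' ↔ b = b' ∧ c = c' :=
  ⟨idx_inj, by rintro ⟨rfl, rfl⟩; rfl⟩

/-- vector with given block coordinates -/
def mk12 {A : Type} (g : Fin 4 → Fin 3 → A) : Fin 12 → A :=
  fun i => g ⟨i.1 / 3, by omega⟩ ⟨i.1 % 3, by omega⟩

theorem mk12_idx {A : Type} (g : Fin 4 → Fin 3 → A) (b : Fin 4) (c : Fin 3) :
    mk12 g (idx b c) = g b c := by
  unfold mk12
  have h1 : (⟨(idx b c).1 / 3, by omega⟩ : Fin 4) = b := by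
    apply Fin.ext; simp only [idx]; omega
  have h2 : (⟨(idx b c).1 % 3, by omega⟩ : Fin 3) = c := by
    apply Fin.ext; simp only [idx]; omega
  rw [h1, h2]

theorem ext12 {A : Type} {u v : Fin 12 → A} (h : ∀ b c, u (idx b c) = v (idx b c)) : u = v := by
  funext i
  obtain ⟨b, c, rfl⟩ := idx_surj i
  exact h b c

/-- `y_b` -/
noncomputable abbrev yb (b : Fin 4) : SB := X (idx b 0)
/-- `x_b` -/
noncomputable abbrev xb (b : Fin 4) : SB := X (idx b 1)
/-- `t_b` -/
noncomputable abbrev tb (b : Fin 4) : SB := X (idx b 2)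
/-- `al_b = t_b - 2 x_b + 2 y_b` -/
noncomputable abbrev al (b : Fin 4) : SB := tb b - 2 * xb b + 2 * yb b

/-- first diagonal -/
noncomputable def f1 : Fin 12 → SB := mk12 fun b => ![1, 1, tb b]
/-- second diagonal -/
noncomputable def f2 : Fin 12 → SB :=
  mk12 fun b => ![yb b * (yb b - tb b) * (yb b + tb b), xb b * (xb b - tb b), 1]

/-- first unimodular change -/
noncomputable def U1 : (Fin 12 → SB) →ₗ[SB] (Fin 12 → SB) where
  toFun v := mk12 fun b => ![v (idx b 0), v (idx b 1),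
    v (idx b 2) + xb b * v (idx b 1) + yb b * v (idx b 0)]
  map_add' u v := by
    apply ext12
    intro b c
    rw [Pi.add_apply, mk12_idx, mk12_idx, mk12_idx]
    fin_cases c <;> simp <;> ring
  map_smul' r v := by
    apply ext12
    intro b c
    rw [Pi.smul_apply, mk12_idx, mk12_idx]
    fin_cases c <;> simp <;> ring

/-- its inverse -/
noncomputable def V1 : (Fin 12 → SB) →ₗ[SB] (Fin 12 → SB) where
  toFun v := mk12 fun b => ![v (idx b 0), v (idx b 1),
    v (idx b 2) - xb b * v (idx b 1) - yb b * v (idx b 0)]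
  map_add' u v := by
    apply ext12
    intro b c
    rw [Pi.add_apply, mk12_idx, mk12_idx, mk12_idx]
    fin_cases c <;> simp <;> ring
  map_smul' r v := by
    apply ext12
    intro b c
    rw [Pi.smul_apply, mk12_idx, mk12_idx]
    fin_cases c <;> simp <;> ring

/-- second unimodular change -/
noncomputable def U2 : (Fin 12 → SB) →ₗ[SB] (Fin 12 → SB) where
  toFun v := mk12 fun b => ![v (idx b 0) + 4 * yb b * v (idx b 1) +
      2 * yb b * (al b - 4 * yb b) * v (idx b 2), v (idx b 1) - 2 * xb b * v (idx b 2), v (idx b 2)]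
  map_add' u v := by
    apply ext12
    intro b c
    rw [Pi.add_apply, mk12_idx, mk12_idx, mk12_idx]
    fin_cases c <;> simp <;> ring
  map_smul' r v := by
    apply ext12
    intro b c
    rw [Pi.smul_apply, mk12_idx, mk12_idx]
    fin_cases c <;> simp <;> ring

/-- its inverse -/
noncomputable def V2 : (Fin 12 → SB) →ₗ[SB] (Fin 12 → SB) where
  toFun v := mk12 fun b => ![v (idx b 0) - 4 * yb b * v (idx b 1) -
      (8 * xb b * yb b + 2 * yb b * (al b - 4 * yb b)) * v (idx b 2),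
      v (idx b 1) + 2 * xb b * v (idx b 2), v (idx b 2)]
  map_add' u v := by
    apply ext12
    intro b c
    rw [Pi.add_apply, mk12_idx, mk12_idx, mk12_idx]
    fin_cases c <;> simp <;> ring
  map_smul' r v := by
    apply ext12
    intro b c
    rw [Pi.smul_apply, mk12_idx, mk12_idx]
    fin_cases c <;> simp <;> ring

theorem U1_idx (v : Fin 12 → SB) (b : Fin 4) (c : Fin 3) : U1 v (idx b c) =
    (![v (idx b 0), v (idx b 1),
      v (idx b 2) + xb b * v (idx b 1) + yb b * v (idx b 0)] : Fin 3 → SB) c :=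
  mk12_idx (fun b => ![v (idx b 0), v (idx b 1),
    v (idx b 2) + xb b * v (idx b 1) + yb b * v (idx b 0)]) b c

theorem V1_idx (v : Fin 12 → SB) (b : Fin 4) (c : Fin 3) : V1 v (idx b c) =
    (![v (idx b 0), v (idx b 1),
      v (idx b 2) - xb b * v (idx b 1) - yb b * v (idx b 0)] : Fin 3 → SB) c :=
  mk12_idx (fun b => ![v (idx b 0), v (idx b 1),
    v (idx b 2) - xb b * v (idx b 1) - yb b * v (idx b 0)]) b c

theorem U2_idx (v : Fin 12 → SB) (b : Fin 4) (c : Fin 3) : U2 v (idx b c) =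
    (![v (idx b 0) + 4 * yb b * v (idx b 1) +
      2 * yb b * (al b - 4 * yb b) * v (idx b 2), v (idx b 1) - 2 * xb b * v (idx b 2),
      v (idx b 2)] : Fin 3 → SB) c :=
  mk12_idx (fun b => ![v (idx b 0) + 4 * yb b * v (idx b 1) +
      2 * yb b * (al b - 4 * yb b) * v (idx b 2), v (idx b 1) - 2 * xb b * v (idx b 2),
      v (idx b 2)]) b c

theorem V2_idx (v : Fin 12 → SB) (b : Fin 4) (c : Fin 3) : V2 v (idx b c) =
    (![v (idx b 0) - 4 * yb b * v (idx b 1) -
      (8 * xb b * yb b + 2 * yb b * (al b - 4 * yb b)) * v (idx b 2),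
      v (idx b 1) + 2 * xb b * v (idx b 2), v (idx b 2)] : Fin 3 → SB) c :=
  mk12_idx (fun b => ![v (idx b 0) - 4 * yb b * v (idx b 1) -
      (8 * xb b * yb b + 2 * yb b * (al b - 4 * yb b)) * v (idx b 2),
      v (idx b 1) + 2 * xb b * v (idx b 2), v (idx b 2)]) b c

theorem U1_V1 (v : Fin 12 → SB) : U1 (V1 v) = v := by
  apply ext12
  intro b c
  rw [U1_idx, V1_idx, V1_idx, V1_idx]
  fin_cases c
  · rfl
  · rfl
  · simp only [Fin.reduceFinMk, Matrix.cons_val]
    ring

theorem V1_U1 (v : Fin 12 → SB) : V1 (U1 v) = v := by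
  apply ext12
  intro b c
  rw [V1_idx, U1_idx, U1_idx, U1_idx]
  fin_cases c
  · rfl
  · rfl
  · simp only [Fin.reduceFinMk, Matrix.cons_val]
    ring

theorem U2_V2 (v : Fin 12 → SB) : U2 (V2 v) = v := by
  apply ext12
  intro b c
  rw [U2_idx, V2_idx, V2_idx, V2_idx]
  fin_cases c <;> simp only [Fin.reduceFinMk, Matrix.cons_val, Fin.zero_eta, Fin.mk_one] <;> ring

theorem V2_U2 (v : Fin 12 → SB) : V2 (U2 v) = v := by
  apply ext12
  intro b c
  rw [V2_idx, U2_idx, U2_idx, U2_idx]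
  fin_cases c <;> simp only [Fin.reduceFinMk, Matrix.cons_val, Fin.zero_eta, Fin.mk_one] <;> ring

/-- the frame map -/
noncomputable def Th : (Fin 12 → SB) →ₗ[SB] (Fin 12 → SB) := U2 ∘ₗ dg f2 ∘ₗ U1 ∘ₗ dg f1

theorem Th_apply (v : Fin 12 → SB) : Th v = U2 (dg f2 (U1 (dg f1 v))) := rfl

theorem Th_idx (v : Fin 12 → SB) (b : Fin 4) (c : Fin 3) : Th v (idx b c) =
    (![yb b * (yb b - tb b) * (yb b + tb b) * v (idx b 0) +
        4 * yb b * (xb b * (xb b - tb b) * v (idx b 1)) +
        2 * yb b * (al b - 4 * yb b) *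
          (tb b * v (idx b 2) + xb b * v (idx b 1) + yb b * v (idx b 0)),
      xb b * (xb b - tb b) * v (idx b 1) - 2 * xb b *
          (tb b * v (idx b 2) + xb b * v (idx b 1) + yb b * v (idx b 0)),
      tb b * v (idx b 2) + xb b * v (idx b 1) + yb b * v (idx b 0)] : Fin 3 → SB) c := by
  rw [Th_apply, U2_idx]
  simp only [dg_apply, U1_idx, f1, f2, mk12_idx]
  fin_cases c <;> simp only [Fin.reduceFinMk, Matrix.cons_val, Fin.zero_eta, Fin.mk_one] <;> ring

theorem ev_idx' (b b' : Fin 4) (c c' : Fin 3) :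
    ev b c (idx b' c') = if b' = b ∧ c' = c then 1 else 0 := by
  simp only [ev, Pi.single_apply, idx_eq_iff]

theorem aB_idx (b : Fin 4) (c : Fin 3) : aB (idx b c) = (![2, -2, 1] : Fin 3 → ℚ) c := by
  have h : ∀ b', (ev b' 2 - 2 • ev b' 1 + 2 • ev b' 0 : Fin 12 → ℚ) (idx b c) =
      if b' = b then (![2, -2, 1] : Fin 3 → ℚ) c else 0 := by
    intro b'
    simp only [Pi.add_apply, Pi.sub_apply, Pi.smul_apply, ev_idx']
    by_cases hb : b = b'
    · subst hb
      fin_cases c <;> simp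
    · have hb' : ¬ b' = b := fun h => hb h.symm
      simp [hb, hb']
  unfold aB
  rw [Finset.sum_apply, Finset.sum_congr rfl fun b' _ => h b']
  simp

theorem φB_idx (b : Fin 4) (c : Fin 3) : φB (idx b c) =
    (![-6 * yb b ^ 3, 2 * xb b ^ 2 - 4 * xb b * yb b, al b] : Fin 3 → SB) c := by
  have h1 : (⟨(idx b c).1 / 3, by omega⟩ : Fin 4) = b := by
    apply Fin.ext; simp only [idx]; omega
  have h2 : (idx b c).1 % 3 = c.1 := by simp only [idx]; omega
  unfold φB
  simp only [h1, h2]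
  fin_cases c <;> simp

theorem Th_aB : Th (cv aB) = φB := by
  apply ext12
  intro b c
  rw [Th_idx, φB_idx]
  simp only [cv, aB_idx]
  fin_cases c
  · simp only [Fin.reduceFinMk, Matrix.cons_val, Fin.zero_eta, Fin.mk_one, map_neg, map_ofNat, map_one]
    ring
  · simp only [Fin.reduceFinMk, Matrix.cons_val, Fin.zero_eta, Fin.mk_one, map_neg, map_ofNat, map_one]
    ring
  · simp only [Fin.reduceFinMk, Matrix.cons_val, Fin.zero_eta, Fin.mk_one, map_neg, map_ofNat, map_one]
    ring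

end Pool.Agent.W958.ST
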