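import Pool.Agent.W958.ST.Frame1

/-!
# Divisibility in the frame of the four blocks (project ST)
-/

set_option autoImplicit false

namespace Pool.Agent.W958.ST

open MvPolynomial

theorem lin_add {K σ : Type} [Field K] [Fintype σ] (α β : σ → K) :
    lin (α + β) = lin α + lin β := by
  unfold lin
  rw [← Finset.sum_add_distrib]
  exact Finset.sum_congr rfl fun i _ => by rw [Pi.add_apply, C_add, add_mul]

theorem lin_smul {K σ : Type} [Field K] [Fintype σ] (s : K) (α : σ → K) :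
    lin (s • α) = C s * lin α := by
  unfold lin
  rw [Finset.mul_sum]
  exact Finset.sum_congr rfl fun i _ => by rw [Pi.smul_apply, smul_eq_mul, C_mul, mul_assoc]

theorem lin_ev (b : Fin 4) (c : Fin 3) : lin (ev b c) = X (idx b c) := by
  unfold lin ev
  rw [Finset.sum_eq_single (idx b c)]
  · simp
  · intro i _ hi
    rw [Pi.single_eq_of_ne hi, C_0, zero_mul]
  · simp

/-- the covectors `e_{b,c} + s e_{b,2}` -/
def bt (b : Fin 4) (c : Fin 3) (s : ℚ) : Fin 12 → ℚ := ev b c + s • ev b 2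

theorem lin_bt (b : Fin 4) (c : Fin 3) (s : ℚ) :
    lin (bt b c s) = X (idx b c) + C s * X (idx b 2) := by
  rw [bt, lin_add, lin_smul, lin_ev, lin_ev]

theorem bt_idx (b b' : Fin 4) (c c' : Fin 3) (s : ℚ) : bt b c s (idx b' c') =
    (if b' = b ∧ c' = c then 1 else 0) + s * (if b' = b ∧ c' = 2 then 1 else 0) := by
  simp only [bt, Pi.add_apply, Pi.smul_apply, smul_eq_mul, ev_idx']

theorem bt_ne (b : Fin 4) (c : Fin 3) (hc : c ≠ 2) (s : ℚ) : bt b c s ≠ 0 := by
  intro h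
  have := congrFun h (idx b c)
  rw [bt_idx] at this
  simp [hc] at this

theorem relprime_bt {b b' : Fin 4} {c c' : Fin 3} {s s' : ℚ} (hc : c ≠ 2) (hc' : c' ≠ 2)
    (h : b = b' → c = c' → s ≠ s') : IsRelPrime (lin (bt b c s)) (lin (bt b' c' s')) := by
  by_cases h1 : b = b' ∧ c = c'
  · obtain ⟨rfl, rfl⟩ := h1
    apply relprime_of_minor (idx b c) (idx b 2)
    simp only [bt_idx]
    simpa [hc, hc.symm] using (h rfl rfl).symm
  · apply relprime_of_minor (idx b c) (idx b' c')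
    simp only [bt_idx]
    have h2 : ¬ (b' = b ∧ c' = c) := fun h3 => h1 ⟨h3.1.symm, h3.2.symm⟩
    simp [hc, hc', h2]

theorem relprime_t {b b' : Fin 4} (h : b ≠ b') :
    IsRelPrime (X (idx b 2) : SB) (X (idx b' 2)) := by
  rw [← lin_ev, ← lin_ev]
  apply relprime_of_minor (idx b 2) (idx b' 2)
  simp [ev_idx', h, h.symm]

theorem not_dvd_t {b b' : Fin 4} {c : Fin 3} {s : ℚ} (hc : c ≠ 2) :
    ¬ lin (bt b c s) ∣ (X (idx b' 2) : SB) := by
  have h : IsRelPrime (lin (bt b c s)) (X (idx b' 2) : SB) := by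
    rw [← lin_ev]
    apply relprime_of_minor (idx b c) (idx b' 2)
    simp [bt_idx, ev_idx', hc]
  exact ((lin_prime (bt_ne b c hc s)).irreducible.isRelPrime_iff_not_dvd).mp h

theorem f1_idx (b : Fin 4) (c : Fin 3) : f1 (idx b c) = (![1, 1, tb b] : Fin 3 → SB) c :=
  mk12_idx _ b c

theorem f2_idx (b : Fin 4) (c : Fin 3) : f2 (idx b c) =
    (![yb b * (yb b - tb b) * (yb b + tb b), xb b * (xb b - tb b), 1] : Fin 3 → SB) c :=
  mk12_idx _ b c

theorem f2_zero (b : Fin 4) : f2 (idx b 0) =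
    lin (bt b 0 0) * lin (bt b 0 (-1)) * lin (bt b 0 1) := by
  rw [f2_idx, lin_bt, lin_bt, lin_bt]
  simp only [Matrix.cons_val, map_zero, map_neg, map_one]
  ring

theorem f2_one (b : Fin 4) : f2 (idx b 1) = lin (bt b 1 0) * lin (bt b 1 (-1)) := by
  rw [f2_idx, lin_bt, lin_bt]
  simp only [Matrix.cons_val, map_zero, map_neg, map_one]
  ring

theorem f1_ne (i : Fin 12) : f1 i ≠ 0 := by
  obtain ⟨b, c, rfl⟩ := idx_surj i
  rw [f1_idx]
  fin_cases c
  · exact one_ne_zero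
  · exact one_ne_zero
  · exact X_ne_zero _

theorem f2_ne (i : Fin 12) : f2 i ≠ 0 := by
  obtain ⟨b, c, rfl⟩ := idx_surj i
  fin_cases c
  · change f2 (idx b 0) ≠ 0
    rw [f2_zero]
    exact mul_ne_zero (mul_ne_zero (lin_ne (bt_ne _ _ (by decide) _))
      (lin_ne (bt_ne _ _ (by decide) _))) (lin_ne (bt_ne _ _ (by decide) _))
  · change f2 (idx b 1) ≠ 0
    rw [f2_one]
    exact mul_ne_zero (lin_ne (bt_ne _ _ (by decide) _)) (lin_ne (bt_ne _ _ (by decide) _))
  · change f2 (idx b 2) ≠ 0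
    rw [f2_idx]
    exact one_ne_zero

theorem f1_rel (i j : Fin 12) (hij : i ≠ j) : IsRelPrime (f1 i) (f1 j) := by
  obtain ⟨b, c, rfl⟩ := idx_surj i
  obtain ⟨b', c', rfl⟩ := idx_surj j
  rw [f1_idx, f1_idx]
  fin_cases c
  · exact isRelPrime_one_left
  · exact isRelPrime_one_left
  · fin_cases c'
    · exact isRelPrime_one_right
    · exact isRelPrime_one_right
    · exact relprime_t fun h => hij (by rw [h])

theorem f2_rel (i j : Fin 12) (hij : i ≠ j) : IsRelPrime (f2 i) (f2 j) := by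
  obtain ⟨b, c, rfl⟩ := idx_surj i
  obtain ⟨b', c', rfl⟩ := idx_surj j
  have key : ∀ (c c' : Fin 3) (s s' : ℚ), c ≠ 2 → c' ≠ 2 → idx b c ≠ idx b' c' →
      IsRelPrime (lin (bt b c s)) (lin (bt b' c' s')) := by
    intro c c' s s' hc hc' hne
    apply relprime_bt hc hc'
    rintro rfl rfl
    exact absurd rfl hne
  fin_cases c
  · change IsRelPrime (f2 (idx b 0)) _
    have hij : idx b 0 ≠ idx b' c' := hij
    fin_cases c'
    · change IsRelPrime _ (f2 (idx b' 0))
      rw [f2_zero, f2_zero]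
      refine IsRelPrime.mul_left (IsRelPrime.mul_left ?_ ?_) ?_ <;>
      refine IsRelPrime.mul_right (IsRelPrime.mul_right ?_ ?_) ?_ <;>
      exact key 0 0 _ _ (by decide) (by decide) hij
    · change IsRelPrime _ (f2 (idx b' 1))
      rw [f2_zero, f2_one]
      refine IsRelPrime.mul_left (IsRelPrime.mul_left ?_ ?_) ?_ <;>
      refine IsRelPrime.mul_right ?_ ?_ <;>
      exact key 0 1 _ _ (by decide) (by decide) hij
    · change IsRelPrime _ (f2 (idx b' 2))
      rw [f2_idx b' 2]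
      exact isRelPrime_one_right
  · change IsRelPrime (f2 (idx b 1)) _
    have hij : idx b 1 ≠ idx b' c' := hij
    fin_cases c'
    · change IsRelPrime _ (f2 (idx b' 0))
      rw [f2_zero, f2_one]
      refine IsRelPrime.mul_left ?_ ?_ <;>
      refine IsRelPrime.mul_right (IsRelPrime.mul_right ?_ ?_) ?_ <;>
      exact key 1 0 _ _ (by decide) (by decide) hij
    · change IsRelPrime _ (f2 (idx b' 1))
      rw [f2_one, f2_one]
      refine IsRelPrime.mul_left ?_ ?_ <;>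
      refine IsRelPrime.mul_right ?_ ?_ <;>
      exact key 1 1 _ _ (by decide) (by decide) hij
    · change IsRelPrime _ (f2 (idx b' 2))
      rw [f2_idx b' 2]
      exact isRelPrime_one_right
  · change IsRelPrime (f2 (idx b 2)) _
    rw [f2_idx b 2]
    exact isRelPrime_one_left

/-! ### membership in `LA` -/

theorem mem_t (b : Fin 4) : ev b 2 ∈ LA := ⟨b, Or.inl rfl⟩

theorem mem_x0 (b : Fin 4) : bt b 1 0 ∈ LA := ⟨b, Or.inr (Or.inl (by simp [bt]))⟩

theorem mem_x1 (b : Fin 4) : bt b 1 (-1) ∈ LA :=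
  ⟨b, Or.inr (Or.inr (Or.inl (by simp [bt, sub_eq_add_neg])))⟩

theorem mem_y0 (b : Fin 4) : bt b 0 0 ∈ LA :=
  ⟨b, Or.inr (Or.inr (Or.inr (Or.inl (by simp [bt]))))⟩

theorem mem_y1 (b : Fin 4) : bt b 0 (-1) ∈ LA :=
  ⟨b, Or.inr (Or.inr (Or.inr (Or.inr (Or.inl (by simp [bt, sub_eq_add_neg])))))⟩

theorem mem_y2 (b : Fin 4) : bt b 0 1 ∈ LA :=
  ⟨b, Or.inr (Or.inr (Or.inr (Or.inr (Or.inr (by simp [bt])))))⟩

theorem LA_cases {β : Fin 12 → ℚ} (h : β ∈ LA) : ∃ b, β = ev b 2 ∨ β = bt b 1 0 ∨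
    β = bt b 1 (-1) ∨ β = bt b 0 0 ∨ β = bt b 0 (-1) ∨ β = bt b 0 1 := by
  obtain ⟨b, h⟩ := h
  refine ⟨b, ?_⟩
  rcases h with h | h | h | h | h | h
  · exact Or.inl h
  · exact Or.inr (Or.inl (by simp [bt, h]))
  · exact Or.inr (Or.inr (Or.inl (by simp [bt, h, sub_eq_add_neg])))
  · exact Or.inr (Or.inr (Or.inr (Or.inl (by simp [bt, h]))))
  · exact Or.inr (Or.inr (Or.inr (Or.inr (Or.inl (by simp [bt, h, sub_eq_add_neg])))))
  · exact Or.inr (Or.inr (Or.inr (Or.inr (Or.inr (by simp [bt, h])))))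

theorem dvd_Th_of (b : Fin 4) (v : Fin 12 → SB) (g : SB)
    (hE : g ∣ tb b * v (idx b 2) + xb b * v (idx b 1) + yb b * v (idx b 0))
    (hX : g ∣ xb b * (xb b - tb b) * v (idx b 1))
    (hY : g ∣ yb b * (yb b - tb b) * (yb b + tb b) * v (idx b 0)) (c : Fin 3) :
    g ∣ Th v (idx b c) := by
  rw [Th_idx]
  fin_cases c
  · exact dvd_add (dvd_add hY (Dvd.dvd.mul_left hX _)) (Dvd.dvd.mul_left hE _)
  · exact dvd_sub hX (Dvd.dvd.mul_left hE _)
  · exact hE

theorem dvd_Th_bt (b b' : Fin 4) (c : Fin 3) (hc : c ≠ 2) (s : ℚ)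
    (h : lin (bt b c s) ∣ f2 (idx b c)) (c' : Fin 3) :
    lin (bt b c s) ∣ Th (cv (bt b c s)) (idx b' c') := by
  have hcv : ∀ c'', (cv (bt b c s) : Fin 12 → SB) (idx b' c'') =
      C ((if b' = b ∧ c'' = c then 1 else 0) + s * (if b' = b ∧ c'' = 2 then 1 else 0)) := by
    intro c''
    rw [cv, bt_idx]
  apply dvd_Th_of
  · rw [hcv, hcv, hcv]
    by_cases hb : b' = b
    · subst hb
      rw [lin_bt]
      have : c = 0 ∨ c = 1 := by
        fin_cases c
        · exact Or.inl rfl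
        · exact Or.inr rfl
        · exact absurd rfl hc
      rcases this with rfl | rfl
      · simp [tb, yb]
        exact ⟨1, by ring⟩
      · simp [tb, xb]
        exact ⟨1, by ring⟩
    · simp [hb]
  · rw [hcv]
    by_cases hb : b' = b ∧ (1 : Fin 3) = c
    · obtain ⟨rfl, rfl⟩ := hb
      rw [f2_idx] at h
      exact Dvd.dvd.mul_right h _
    · have : (C ((if b' = b ∧ (1 : Fin 3) = c then (1 : ℚ) else 0) +
          s * (if b' = b ∧ (1 : Fin 3) = 2 then 1 else 0)) : SB) = 0 := by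
        rw [if_neg hb, if_neg (by simp)]
        simp
      rw [this, mul_zero]
      exact dvd_zero _
  · rw [hcv]
    by_cases hb : b' = b ∧ (0 : Fin 3) = c
    · obtain ⟨rfl, rfl⟩ := hb
      rw [f2_idx] at h
      exact Dvd.dvd.mul_right h _
    · have : (C ((if b' = b ∧ (0 : Fin 3) = c then (1 : ℚ) else 0) +
          s * (if b' = b ∧ (0 : Fin 3) = 2 then 1 else 0)) : SB) = 0 := by
        rw [if_neg hb, if_neg (by simp)]
        simp
      rw [this, mul_zero]
      exact dvd_zero _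

theorem dvd_Th {β : Fin 12 → ℚ} (h : β ∈ LA) (i : Fin 12) : lin β ∣ Th (cv β) i := by
  obtain ⟨b', c', rfl⟩ := idx_surj i
  obtain ⟨b, h⟩ := LA_cases h
  rcases h with rfl | rfl | rfl | rfl | rfl | rfl
  · rw [lin_ev]
    have hcv : ∀ c'', (cv (ev b 2) : Fin 12 → SB) (idx b' c'') =
        C (if b' = b ∧ c'' = 2 then 1 else 0) := by
      intro c''
      rw [cv, ev_idx']
    apply dvd_Th_of
    · rw [hcv, hcv, hcv]
      by_cases hb : b' = b
      · subst hb
        simp [tb]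
      · simp [hb]
    · rw [hcv]; simp
    · rw [hcv]; simp
  · exact dvd_Th_bt b b' 1 (by decide) 0 (by rw [f2_one]; exact dvd_mul_right _ _) c'
  · exact dvd_Th_bt b b' 1 (by decide) (-1) (by rw [f2_one]; exact dvd_mul_left _ _) c'
  · exact dvd_Th_bt b b' 0 (by decide) 0
      (by rw [f2_zero, mul_assoc]; exact dvd_mul_right _ _) c'
  · exact dvd_Th_bt b b' 0 (by decide) (-1)
      (by rw [f2_zero, mul_comm (lin (bt b 0 0)), mul_assoc]; exact dvd_mul_right _ _) c'
  · exact dvd_Th_bt b b' 0 (by decide) 1 (by rw [f2_zero]; exact dvd_mul_left _ _) c'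

end Pool.Agent.W958.ST
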