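import Pool.Agent.W958.ST.FDim
import Pool.Agent.W958.ST.Stms

/-!
# Exactness of the Koszul complex of a regular sequence (project ST)
-/

set_option autoImplicit false

namespace Pool.Agent.W958.ST

open MvPolynomial

variable {K σ : Type} [Field K]

theorem hcomp_mul {φ g : MvPolynomial σ K} {c : ℕ} (hφ : φ.IsHomogeneous c) (d : ℕ) :
    homogeneousComponent d (φ * g) =
      φ * (if c ≤ d then homogeneousComponent (d - c) g else 0) := by
  conv_lhs => rw [← sum_homogeneousComponent g, Finset.mul_sum, map_sum]
  have h : ∀ i, homogeneousComponent d (φ * homogeneousComponent i g) =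
      if i + c = d then φ * homogeneousComponent i g else 0 := by
    intro i
    have h1 := hφ.mul (homogeneousComponent_isHomogeneous i g)
    rw [homogeneousComponent_of_mem ((mem_homogeneousSubmodule _ _).mpr h1)]
    congr 1
    rw [eq_iff_iff]
    omega
  simp only [h]
  split_ifs with hc
  · by_cases hd : d - c ∈ Finset.range (g.totalDegree + 1)
    · rw [Finset.sum_eq_single (d - c)]
      · rw [if_pos (by omega)]
      · intro b _ hb
        rw [if_neg (by omega)]
      · intro h; exact absurd hd h
    · rw [homogeneousComponent_eq_zero (d - c) g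
        (by rw [Finset.mem_range] at hd; omega), mul_zero]
      apply Finset.sum_eq_zero
      intro i hi
      rw [if_neg]
      intro he
      apply hd
      have : i = d - c := by omega
      rwa [← this]
  · rw [mul_zero]
    apply Finset.sum_eq_zero
    intro i _
    rw [if_neg (by omega)]

/-- homogeneous representation of elements of the ideal generated by `φ j`, `j < m` -/
theorem exists_rep {n : ℕ} (φ : Fin n → MvPolynomial σ K) (a : Fin n → ℕ)
    (hφ : ∀ i, (φ i).IsHomogeneous (a i)) (m : ℕ) (f : MvPolynomial σ K)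
    (hf : f ∈ Ideal.span {f | ∃ j : Fin n, (j : ℕ) < m ∧ f = φ j}) (k A : ℕ) (hw : HomW f k A) :
    ∃ g : Fin n → MvPolynomial σ K, (∀ i : Fin n, m ≤ i → g i = 0) ∧
      (∀ i, HomW (g i) k (A + a i)) ∧ ∑ i, φ i * g i = f := by
  have h0 : ∃ g : Fin n → MvPolynomial σ K, (∀ i : Fin n, m ≤ i → g i = 0) ∧
      ∑ i, φ i * g i = f := by
    refine Submodule.span_induction (p := fun f _ => ∃ g : Fin n → MvPolynomial σ K,
      (∀ i : Fin n, m ≤ i → g i = 0) ∧ ∑ i, φ i * g i = f) ?_ ?_ ?_ ?_ hf
    · rintro x ⟨j, hj, rfl⟩
      refine ⟨Pi.single j 1, ?_, ?_⟩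
      · intro i hi
        rw [Pi.single_apply, if_neg]
        rintro rfl
        omega
      · rw [Finset.sum_eq_single j]
        · simp
        · intro b _ hb
          rw [Pi.single_eq_of_ne hb, mul_zero]
        · simp
    · exact ⟨0, fun _ _ => rfl, by simp⟩
    · rintro x y _ _ ⟨g1, h1, e1⟩ ⟨g2, h2, e2⟩
      refine ⟨g1 + g2, fun i hi => by simp [h1 i hi, h2 i hi], ?_⟩
      rw [← e1, ← e2, ← Finset.sum_add_distrib]
      exact Finset.sum_congr rfl fun i _ => by rw [Pi.add_apply, mul_add]
    · rintro r x _ ⟨g1, h1, e1⟩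
      refine ⟨fun i => r * g1 i, fun i hi => by simp [h1 i hi], ?_⟩
      rw [← e1, smul_eq_mul, Finset.mul_sum]
      exact Finset.sum_congr rfl fun i _ => by ring
  obtain ⟨g, hg, he⟩ := h0
  rcases Nat.lt_or_ge k A with hk | hk
  · refine ⟨0, fun _ _ => rfl, fun i => HomW.zero _ _, ?_⟩
    rw [hw.2 hk]
    simp
  · refine ⟨fun i => if a i ≤ k - A then homogeneousComponent (k - A - a i) (g i) else 0,
      fun i hi => ?_, fun i => ?_, ?_⟩
    · simp [hg i hi]
    · constructor
      · intro h
        simp only
        rw [if_pos (by omega)]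
        have e : k - (A + a i) = k - A - a i := by omega
        rw [e]
        exact homogeneousComponent_isHomogeneous _ _
      · intro h
        simp only
        rw [if_neg (by omega)]
    · have h1 := homogeneousComponent_eq_self (hw.1 hk)
      rw [← h1, ← he, map_sum]
      exact Finset.sum_congr rfl fun i _ => (hcomp_mul (hφ i) _).symm

theorem alt_sum_apply {R M : Type*} [CommRing R] [AddCommGroup M] [Module R M] {p : ℕ}
    {I : Type*} (s : Finset I) (f : I → M [⋀^Fin p]→ₗ[R] R) (v : Fin p → M) :
    (∑ i ∈ s, f i) v = ∑ i ∈ s, f i v := by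
  classical
  induction s using Finset.induction_on with
  | empty => simp
  | insert i s hi ih => rw [Finset.sum_insert hi, Finset.sum_insert hi, AlternatingMap.add_apply, ih]

section
variable {n : ℕ} {a : Fin n → ℕ} {p k A : ℕ}

theorem single_cons (m : Fin n) (w : Fin p → Fin n) :
    (Matrix.vecCons (Pi.single m 1) (fun j => Pi.single (w j) 1) :
      Fin (p + 1) → (Fin n → MvPolynomial σ K)) =
      fun j => Pi.single ((Matrix.vecCons m w : Fin (p + 1) → Fin n) j) 1 := by
  funext j
  refine Fin.cases ?_ (fun j => ?_) j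
  · simp
  · simp

theorem wt_curry_e {ω : Alt σ K (Fin n) (p + 1)} (h : ω ∈ WF a (p + 1) k A) (m : Fin n) :
    ω.curryLeft (Pi.single m 1) ∈ WF a p k (A + a m) := by
  intro w
  rw [AlternatingMap.curryLeft_apply_apply, single_cons]
  have h1 := h (Matrix.vecCons m w)
  rw [Fin.sum_univ_succ] at h1
  simp only [Matrix.cons_val_zero, Matrix.cons_val_succ] at h1
  rw [add_assoc]
  exact h1

theorem wt_smul {ω : Alt σ K (Fin n) p} {g : MvPolynomial σ K} {c : ℕ} (hg : g.IsHomogeneous c)
    (h : ω ∈ WF a p k (A + c)) : g • ω ∈ WF a p k A := by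
  intro w
  rw [AlternatingMap.smul_apply, smul_eq_mul]
  apply HomW.mul_left hg
  have := h w
  rwa [add_right_comm] at this

theorem sum_single_mul (φ : Fin n → MvPolynomial σ K) :
    φ = ∑ i, φ i • (Pi.single i 1 : Fin n → MvPolynomial σ K) := by
  funext j
  simp [Finset.sum_apply, Pi.single_apply]

theorem curry_phi (ω : Alt σ K (Fin n) (p + 1)) (φ : Fin n → MvPolynomial σ K) :
    ω.curryLeft φ = ∑ i, φ i • ω.curryLeft (Pi.single i 1) := by
  conv_lhs => rw [sum_single_mul φ, map_sum]
  exact Finset.sum_congr rfl fun i _ => map_smul _ _ _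

theorem wt_curry_phi {ω : Alt σ K (Fin n) (p + 1)} (h : ω ∈ WF a (p + 1) k A)
    {φ : Fin n → MvPolynomial σ K} (hφ : ∀ i, (φ i).IsHomogeneous (a i)) :
    ω.curryLeft φ ∈ WF a p k A := by
  rw [curry_phi]
  exact Submodule.sum_mem _ fun i _ => wt_smul (hφ i) (wt_curry_e h i)

/-- coordinate functional -/
noncomputable def pr (K σ : Type) [Field K] {n : ℕ} (m : Fin n) :
    (Fin n → MvPolynomial σ K) →ₗ[MvPolynomial σ K] MvPolynomial σ K := LinearMap.proj m

theorem wt_wd {ω : Alt σ K (Fin n) p} (m : Fin n) (h : ω ∈ WF a p k (A + a m)) :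
    wd (pr K σ m) ω ∈ WF a (p + 1) k A := by
  intro w
  rw [wd_apply]
  rw [← mem_HW]
  refine Submodule.sum_mem _ fun i _ => ?_
  have e1 : ((-1) ^ (i : ℕ) : MvPolynomial σ K) = C ((-1) ^ (i : ℕ)) := by simp
  rw [e1, ← MvPolynomial.smul_eq_C_mul]
  apply Submodule.smul_mem
  rw [mem_HW]
  have e2 : pr K σ m (Pi.single (w i) 1) = if w i = m then 1 else 0 := by
    simp only [pr, LinearMap.proj_apply, Pi.single_apply, eq_comm]
  rw [e2]
  split_ifs with hm
  · rw [one_mul]
    have h1 := h (i.removeNth w)
    have e3 : A + ∑ j, a (w j) = A + a m + ∑ j, a (i.removeNth w j) := by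
      rw [Fin.sum_univ_succAbove _ i, hm, add_assoc]
      rfl
    rw [e3]
    exact h1
  · rw [zero_mul]; exact HomW.zero _ _

theorem wd_curry_single {ω : Alt σ K (Fin n) (p + 1)} (m j : Fin n)
    (h : ω.curryLeft (Pi.single j 1) = 0) :
    (wd (pr K σ m) ω).curryLeft (Pi.single j 1) = if j = m then ω else 0 := by
  rw [curryLeft_wd, h, wd_zero, sub_zero]
  have e2 : pr K σ m (Pi.single j 1) = if j = m then 1 else 0 := by
    simp only [pr, LinearMap.proj_apply, Pi.single_apply, eq_comm]
  rw [e2]
  split_ifs with hm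
  · rw [one_smul]
  · rw [zero_smul]

/-- the 1-form with coefficients `g` -/
noncomputable def oneForm (g : Fin n → MvPolynomial σ K) : Alt σ K (Fin n) 1 :=
  AlternatingMap.ofSubsingleton (MvPolynomial σ K) (Fin n → MvPolynomial σ K) (MvPolynomial σ K)
    (0 : Fin 1) (∑ i, g i • pr K σ i)

theorem oneForm_apply (g : Fin n → MvPolynomial σ K) (v : Fin 1 → (Fin n → MvPolynomial σ K)) :
    oneForm g v = ∑ i, g i * v 0 i := by
  simp [oneForm, pr, LinearMap.sum_apply]

end

/-- exactness of the Koszul complex, with weights -/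
theorem exact_kz {n : ℕ} (φ : Fin n → MvPolynomial σ K) (a : Fin n → ℕ)
    (hφ : ∀ i, (φ i).IsHomogeneous (a i)) (hR : Reg φ) (m : ℕ) (hm : m ≤ n) :
    ∀ (p k A : ℕ) (ω : Alt σ K (Fin n) (p + 1)), ω ∈ WF a (p + 1) k A →
      (∀ j : Fin n, m ≤ j → ω.curryLeft (Pi.single j 1) = 0) → ω.curryLeft φ = 0 →
      ∃ η : Alt σ K (Fin n) (p + 2), η ∈ WF a (p + 2) k A ∧
        (∀ j : Fin n, m ≤ j → η.curryLeft (Pi.single j 1) = 0) ∧ η.curryLeft φ = ω := by
  induction m with
  | zero =>
    intro p k A ω _ h _
    refine ⟨0, zero_mem _, fun j _ => by simp, ?_⟩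
    rw [AlternatingMap.curryLeft_zero, LinearMap.zero_apply]
    symm
    apply ext_single
    intro w
    have h1 := apply_eq_curry ω (fun j => Pi.single (w j) 1) 0
    rw [h1, h (w 0) (Nat.zero_le _)]
    simp
  | succ m ih =>
    have ih := ih (by omega)
    intro p k A ω hω h hc
    let em : Fin n := ⟨m, by omega⟩
    have hcw := wt_curry_e hω em
    obtain ⟨c', hc'w, hc'k, hc'e⟩ : ∃ c' : Alt σ K (Fin n) (p + 1),
        c' ∈ WF a (p + 1) k (A + a em) ∧
        (∀ j : Fin n, m ≤ j → c'.curryLeft (Pi.single j 1) = 0) ∧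
        c'.curryLeft φ = ω.curryLeft (Pi.single em 1) := by
      cases p with
      | zero =>
        have h0 : ω.curryLeft φ ![] = ∑ i, φ i * ω.curryLeft (Pi.single i 1) ![] := by
          rw [curry_phi, alt_sum_apply]
          exact Finset.sum_congr rfl fun i _ => rfl
        rw [hc, AlternatingMap.zero_apply] at h0
        have h1 : φ em * ω.curryLeft (Pi.single em 1) ![] ∈
            Ideal.span {f | ∃ j, j < em ∧ f = φ j} := by
          have h2 : φ em * ω.curryLeft (Pi.single em 1) ![] =
              - ∑ i ∈ Finset.univ.erase em, φ i * ω.curryLeft (Pi.single i 1) ![] := by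
            rw [← Finset.add_sum_erase _ _ (Finset.mem_univ em)] at h0
            exact eq_neg_of_add_eq_zero_left h0.symm
          rw [h2]
          apply Submodule.neg_mem
          refine Submodule.sum_mem _ fun i hi => ?_
          rcases lt_or_ge i em with hlt | hge
          · exact Ideal.mul_mem_right _ _ (Ideal.subset_span ⟨i, hlt, rfl⟩)
          · have hne : i ≠ em := Finset.ne_of_mem_erase hi
            have : m + 1 ≤ (i : ℕ) := by
              have h3 : (em : ℕ) ≤ i := hge
              have h4 : (em : ℕ) ≠ i := fun h5 => hne (Fin.ext h5.symm)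
              have h5 : (em : ℕ) = m := rfl
              omega
            rw [h i this]
            simp
        have h2 := hR em _ h1
        have hw : HomW (ω.curryLeft (Pi.single em 1) ![]) k (A + a em) := by
          have h3 := hcw ![]
          have h4 : (fun j : Fin 0 => (Pi.single ((![] : Fin 0 → Fin n) j) 1 :
            Fin n → MvPolynomial σ K)) = ![] := by
            funext j; exact j.elim0
          rw [h4] at h3
          simpa using h3
        have h2' : ω.curryLeft (Pi.single em 1) ![] ∈
            Ideal.span {f | ∃ j : Fin n, (j : ℕ) < m ∧ f = φ j} := h2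
        obtain ⟨g, hg1, hg2, hg3⟩ := exists_rep φ a hφ m _ h2' k (A + a em) hw
        refine ⟨oneForm g, ?_, ?_, ?_⟩
        · intro w
          rw [oneForm_apply]
          rw [Finset.sum_eq_single (w 0)]
          · simpa using hg2 (w 0)
          · intro b _ hb
            rw [Pi.single_eq_of_ne hb, mul_zero]
          · simp
        · intro j hj
          refine AlternatingMap.ext fun v => ?_
          rw [AlternatingMap.curryLeft_apply_apply, oneForm_apply, AlternatingMap.zero_apply]
          apply Finset.sum_eq_zero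
          intro i _
          rw [Matrix.cons_val_zero, Pi.single_apply]
          split_ifs with hij
          · rw [hg1 i (by rw [hij]; exact hj), zero_mul]
          · rw [mul_zero]
        · refine AlternatingMap.ext fun v => ?_
          have hv : v = ![] := by funext j; exact j.elim0
          rw [AlternatingMap.curryLeft_apply_apply, oneForm_apply, hv, ← hg3]
          exact Finset.sum_congr rfl fun i _ => by rw [Matrix.cons_val_zero, mul_comm]
      | succ p =>
        refine ih p k (A + a em) _ hcw ?_ ?_
        · intro j hj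
          rcases Nat.eq_or_lt_of_le hj with h1 | h1
          · have : j = em := Fin.ext h1.symm
            rw [this]
            exact AlternatingMap.curryLeft_same _ _
          · rw [curryLeft_comm, h j h1]
            simp
        · rw [curryLeft_comm, hc]
          simp
    have hwd := wt_wd em hc'w
    have hwdk : ∀ j : Fin n, m ≤ j → (wd (pr K σ em) c').curryLeft (Pi.single j 1) =
        if j = em then c' else 0 := fun j hj => wd_curry_single em j (hc'k j hj)
    have key : ∃ η : Alt σ K (Fin n) (p + 2), η ∈ WF a (p + 2) k A ∧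
        (∀ j : Fin n, m ≤ j → η.curryLeft (Pi.single j 1) = 0) ∧
        η.curryLeft φ = ω + (wd (pr K σ em) c').curryLeft φ := by
      refine ih p k A (ω + (wd (pr K σ em) c').curryLeft φ) ?_ ?_ ?_
      · exact Submodule.add_mem _ hω (wt_curry_phi hwd hφ)
      · intro j hj
        have e : (ω + (wd (pr K σ em) c').curryLeft φ).curryLeft (Pi.single j 1) =
            ω.curryLeft (Pi.single j 1) +
              ((wd (pr K σ em) c').curryLeft φ).curryLeft (Pi.single j 1) := rfl
        rw [e, curryLeft_comm, hwdk j hj]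
        split_ifs with hjm
        · rw [hjm, hc'e]
          abel
        · have : m + 1 ≤ (j : ℕ) := by
            have h4 : (j : ℕ) ≠ m := fun h5 => hjm (Fin.ext h5)
            omega
          rw [h j this]
          simp
      · have e : (ω + (wd (pr K σ em) c').curryLeft φ).curryLeft φ =
            ω.curryLeft φ + ((wd (pr K σ em) c').curryLeft φ).curryLeft φ := rfl
        rw [e, hc, AlternatingMap.curryLeft_same, add_zero]
    obtain ⟨η, hη1, hη2, hη3⟩ := key
    · refine ⟨η - wd (pr K σ em) c', ?_, ?_, ?_⟩
      · exact Submodule.sub_mem _ hη1 hwd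
      · intro j hj
        have e : (η - wd (pr K σ em) c').curryLeft (Pi.single j 1) =
            η.curryLeft (Pi.single j 1) - (wd (pr K σ em) c').curryLeft (Pi.single j 1) := rfl
        rw [e, hη2 j (by omega), hwdk j (by omega), if_neg, sub_zero]
        rintro rfl
        have h5 : ((⟨m, by omega⟩ : Fin n) : ℕ) = m := rfl
        omega
      · have e : (η - wd (pr K σ em) c').curryLeft φ =
            η.curryLeft φ - (wd (pr K σ em) c').curryLeft φ := rfl
        rw [e, hη3]
        abel

end Pool.Agent.W958.ST
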