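import Pool.Agent.W958.ST.Kz1

/-!
# Dimension counts for the Koszul complex (project ST)
-/

set_option autoImplicit false

namespace Pool.Agent.W958.ST

open MvPolynomial

/-- rank-nullity for the restriction to a submodule -/
theorem rank_null {K V W : Type*} [Field K] [AddCommGroup V] [Module K V] [AddCommGroup W]
    [Module K W] (T : V →ₗ[K] W) (U : Submodule K V) [Module.Finite K U] :
    Module.finrank K U = Module.finrank K (U ⊓ LinearMap.ker T : Submodule K V) +
      Module.finrank K (U.map T) := by
  have h := LinearMap.finrank_range_add_finrank_ker (T.domRestrict U)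
  rw [LinearMap.range_domRestrict] at h
  have h2 : Module.finrank K (U ⊓ LinearMap.ker T : Submodule K V) =
      Module.finrank K (LinearMap.ker (T.domRestrict U)) := by
    rw [LinearMap.ker_domRestrict, ← Submodule.map_comap_subtype, Submodule.finrank_map_subtype_eq]
  rw [h2, ← h, add_comm]

/-- an injective tuple is a permutation of an increasing tuple -/
theorem exists_sort {ι : Type} [LinearOrder ι] {n : ℕ} (w : Fin n → ι)
    (hw : Function.Injective w) : ∃ (u : Fin n ↪o ι) (τ : Equiv.Perm (Fin n)), w = u ∘ τ := by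
  classical
  have hcard : (Finset.univ.image w).card = n := by
    rw [Finset.card_image_of_injective _ hw, Finset.card_univ, Fintype.card_fin]
  let u : Fin n ↪o ι := (Finset.univ.image w).orderEmbOfFin hcard
  have hu : ∀ j, ∃ i, u i = w j := by
    intro j
    have h : w j ∈ Set.range u := by
      rw [Finset.range_orderEmbOfFin]
      simp
    exact h
  choose f hf using hu
  have hfi : Function.Injective f := by
    intro i j hij
    apply hw
    rw [← hf i, ← hf j, hij]
  refine ⟨u, Equiv.ofBijective f (Finite.injective_iff_bijective.mp hfi), ?_⟩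
  funext j
  exact (hf j).symm

variable {K σ : Type} [Field K] [Fintype σ] [DecidableEq σ] {n : ℕ}

omit [Fintype σ] [DecidableEq σ] in
theorem mem_WF_iff_incr (a : Fin n → ℕ) (p k : ℕ) (ω : Alt σ K (Fin n) p) :
    ω ∈ WF a p k 0 ↔ ∀ u : Fin p ↪o Fin n,
      HomW (ω (fun j => Pi.single (u j) 1)) k (∑ j, a (u j)) := by
  constructor
  · intro h u
    have := h u
    rwa [zero_add] at this
  · intro h w
    rw [zero_add]
    by_cases hw : Function.Injective w
    · obtain ⟨u, τ, rfl⟩ := exists_sort w hw
      have h2 := ω.map_perm (fun j => (Pi.single (u j) 1 : Fin n → MvPolynomial σ K)) τ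
      have h3 : (fun j => (Pi.single ((u ∘ τ) j) 1 : Fin n → MvPolynomial σ K)) =
          (fun j => (Pi.single (u j) 1 : Fin n → MvPolynomial σ K)) ∘ τ := rfl
      rw [h3, h2]
      have h4 : ∑ j, a ((u ∘ τ) j) = ∑ j, a (u j) := by
        exact Equiv.sum_comp τ (fun j => a (u j))
      rw [h4]
      rcases Int.units_eq_one_or (Equiv.Perm.sign τ) with h5 | h5
      · rw [h5, one_smul]; exact h u
      · rw [h5, Units.neg_smul, one_smul]
        have := Submodule.neg_mem (HW K σ k (∑ j, a (u j))) (mem_HW.mpr (h u))
        exact this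
    · rw [apply_single_of_not_injective ω w hw]
      exact HomW.zero _ _

theorem finrank_WF (a : Fin n → ℕ) (p k : ℕ) :
    Module.finrank K (WF (K := K) (σ := σ) a p k 0) =
      ∑ u : Fin p ↪o Fin n, Module.finrank K (HW K σ k (∑ j, a (u j))) := by
  let f : WF (K := K) (σ := σ) a p k 0 →ₗ[K]
      ((u : Fin p ↪o Fin n) → HW K σ k (∑ j, a (u j))) :=
    { toFun := fun ω u => ⟨ω.1 (fun j => Pi.single (u j) 1), (mem_WF_iff_incr a p k ω.1).mp ω.2 u⟩
      map_add' := fun x y => by
        funext w
        apply Subtype.ext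
        simp
      map_smul' := fun c x => by
        funext w
        apply Subtype.ext
        simp }
  have hf : Function.Bijective f := by
    constructor
    · intro x y h
      apply Subtype.ext
      apply ext_incr (Pi.basisFun (MvPolynomial σ K) (Fin n))
      intro u
      simp only [Pi.basisFun_apply]
      exact congrArg Subtype.val (congrFun h u)
    · intro g
      obtain ⟨ω, hω⟩ := exists_incr (n := p) (Pi.basisFun (MvPolynomial σ K) (Fin n))
        (fun u => (g u).1)
      simp only [Pi.basisFun_apply] at hω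
      refine ⟨⟨ω, (mem_WF_iff_incr a p k ω).mpr fun u => ?_⟩, ?_⟩
      · rw [hω u]; exact (g u).2
      · funext u
        apply Subtype.ext
        exact hω u
  rw [(LinearEquiv.ofBijective f hf).finrank_eq, Module.finrank_pi_fintype]

/-- `J_m` in weight `k`, shift `A` -/
noncomputable def JW (φ : Fin n → MvPolynomial σ K) (m k A : ℕ) :
    Submodule K (MvPolynomial σ K) :=
  (Ideal.span {f | ∃ j : Fin n, (j : ℕ) < m ∧ f = φ j}).restrictScalars K ⊓ HW K σ k A

instance finite_JW (φ : Fin n → MvPolynomial σ K) (m k A : ℕ) : Module.Finite K (JW φ m k A) :=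
  Submodule.finiteDimensional_of_le (inf_le_right : JW φ m k A ≤ HW K σ k A)

omit [Fintype σ] [DecidableEq σ] in
theorem homW_add (f : MvPolynomial σ K) (k A : ℕ) : HomW f (k + A) A ↔ HomW f k 0 := by
  rw [homW_zero_right]
  constructor
  · intro h
    simpa using h.1 (by omega)
  · intro h
    exact ⟨fun _ => by simpa using h, fun h1 => absurd h1 (by omega)⟩

theorem gen_shift (g : ℕ → ℕ → ℕ) (A : ℕ) (h1 : ∀ k, g (k + A) A = g k 0)
    (h2 : ∀ k, k < A → g k A = 0) :
    gen (fun k => g k A) = PowerSeries.X ^ A * gen (fun k => g k 0) := by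
  ext k
  rw [PowerSeries.coeff_X_pow_mul', gen, gen, PowerSeries.coeff_mk]
  split_ifs with h
  · rw [PowerSeries.coeff_mk]
    obtain ⟨j, rfl⟩ : ∃ j, k = j + A := ⟨k - A, by omega⟩
    rw [h1, Nat.add_sub_cancel]
  · rw [h2 k (by omega)]; simp

theorem gen_HW (A : ℕ) : gen (fun k => Module.finrank K (HW K σ k A)) =
    PowerSeries.X ^ A * gen (sdim K σ) := by
  have h := gen_shift (fun k A => Module.finrank K (HW K σ k A)) A ?_ ?_
  · rw [h]
    congr 2
    funext k
    rw [sdim, HW_eq_of_le (Nat.zero_le k), Nat.sub_zero]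
  · intro k
    have : HW K σ (k + A) A = HW K σ k 0 := by
      ext f; rw [mem_HW, mem_HW, homW_add]
    rw [this]
  · intro k hk
    have : HW K σ k A = ⊥ := HW_eq_of_lt hk
    rw [this]
    simp

theorem gen_JW (φ : Fin n → MvPolynomial σ K) (m A : ℕ) :
    gen (fun k => Module.finrank K (JW φ m k A)) =
    PowerSeries.X ^ A * gen (fun k => Module.finrank K (JW φ m k 0)) := by
  apply gen_shift (fun k A => Module.finrank K (JW φ m k A)) A
  · intro k
    have : JW φ m (k + A) A = JW φ m k 0 := by
      unfold JW
      have h : HW K σ (k + A) A = HW K σ k 0 := by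
        ext f; rw [mem_HW, mem_HW, homW_add]
      rw [h]
    rw [this]
  · intro k hk
    have : JW φ m k A = ⊥ := by
      unfold JW
      rw [HW_eq_of_lt hk, inf_bot_eq]
    rw [this]
    simp

theorem finrank_JW_succ (φ : Fin n → MvPolynomial σ K) (a : Fin n → ℕ)
    (hφ : ∀ i, (φ i).IsHomogeneous (a i)) (hR : Reg φ) (m k : ℕ) (hm : m < n) :
    Module.finrank K (JW φ (m + 1) k 0) + Module.finrank K (JW φ m k (a ⟨m, hm⟩)) =
      Module.finrank K (JW φ m k 0) + Module.finrank K (HW K σ k (a ⟨m, hm⟩)) := by
  let em : Fin n := ⟨m, hm⟩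
  let T : (JW φ m k 0 × HW K σ k (a em)) →ₗ[K] MvPolynomial σ K :=
    (JW φ m k 0).subtype.coprod ((LinearMap.mulLeft K (φ em)).comp (HW K σ k (a em)).subtype)
  have hT : ∀ x, T x = x.1.1 + φ em * x.2.1 := fun x => rfl
  have h := LinearMap.finrank_range_add_finrank_ker T
  have hr : LinearMap.range T = JW φ (m + 1) k 0 := by
    apply le_antisymm
    · rintro _ ⟨x, rfl⟩
      rw [hT]
      refine ⟨?_, ?_⟩
      · apply Ideal.add_mem
        · refine Ideal.span_mono ?_ x.1.2.1
          rintro f ⟨j, hj, rfl⟩
          exact ⟨j, by omega, rfl⟩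
        · exact Ideal.mul_mem_right _ _ (Ideal.subset_span ⟨em, Nat.lt_succ_self m, rfl⟩)
      · apply Submodule.add_mem
        · exact x.1.2.2
        · exact HomW.mul_left (hφ em) (by rw [zero_add]; exact x.2.2)
    · rintro f ⟨hf1, hf2⟩
      obtain ⟨g, hg1, hg2, hg3⟩ := exists_rep φ a hφ (m + 1) f hf1 k 0 hf2
      have e1 : ∑ i, φ i * g i = ∑ i ∈ Finset.univ.erase em, φ i * g i + φ em * g em := by
        rw [Finset.sum_erase_add _ _ (Finset.mem_univ em)]
      have hmem : ∑ i ∈ Finset.univ.erase em, φ i * g i ∈ JW φ m k 0 := by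
        refine Submodule.sum_mem _ fun i hi => ?_
        rcases lt_or_ge (i : ℕ) m with hlt | hge
        · refine ⟨Ideal.mul_mem_right _ _ (Ideal.subset_span ⟨i, hlt, rfl⟩), ?_⟩
          exact HomW.mul_left (hφ i) (hg2 i)
        · have hne : i ≠ em := Finset.ne_of_mem_erase hi
          have h4 : (i : ℕ) ≠ m := fun h5 => hne (Fin.ext h5)
          rw [hg1 i (by omega), mul_zero]
          exact Submodule.zero_mem _
      refine ⟨(⟨_, hmem⟩, ⟨g em, by have := hg2 em; rwa [zero_add] at this⟩), ?_⟩
      rw [hT, ← hg3, e1]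
  have hk : Module.finrank K (LinearMap.ker T) = Module.finrank K (JW φ m k (a em)) := by
    let G : JW φ m k (a em) →ₗ[K] (JW φ m k 0 × HW K σ k (a em)) :=
      { toFun := fun g => (⟨-(φ em * g.1), ⟨Ideal.neg_mem_iff _ |>.mpr
            (Ideal.mul_mem_left _ _ g.2.1), Submodule.neg_mem _
              (HomW.mul_left (hφ em) (by rw [zero_add]; exact g.2.2))⟩⟩, ⟨g.1, g.2.2⟩)
        map_add' := fun x y => by
          apply Prod.ext
          · apply Subtype.ext
            simp only [Submodule.coe_add, Prod.fst_add]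
            ring
          · rfl
        map_smul' := fun c x => by
          apply Prod.ext
          · apply Subtype.ext
            simp only [Submodule.coe_smul, Prod.smul_fst, RingHom.id_apply, smul_neg,
              mul_smul_comm]
          · rfl }
    have hG : Function.Injective G := by
      intro x y hxy
      have := congrArg (fun z => (z.2 : MvPolynomial σ K)) hxy
      exact Subtype.ext this
    have hGr : LinearMap.range G = LinearMap.ker T := by
      apply le_antisymm
      · rintro _ ⟨x, rfl⟩
        rw [LinearMap.mem_ker, hT]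
        change -(φ em * x.1) + φ em * x.1 = 0
        ring
      · intro x hx
        rw [LinearMap.mem_ker, hT] at hx
        have h1 : φ em * x.2.1 ∈ Ideal.span {f | ∃ j, j < em ∧ f = φ j} := by
          have h2 : φ em * x.2.1 = - x.1.1 := by
            rw [add_comm] at hx
            exact eq_neg_of_add_eq_zero_left hx
          rw [h2]
          exact (Ideal.neg_mem_iff _).mpr x.1.2.1
        have h3 := hR em _ h1
        refine ⟨⟨x.2.1, ⟨h3, x.2.2⟩⟩, ?_⟩
        apply Prod.ext
        · apply Subtype.ext
          change -(φ em * x.2.1) = x.1.1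
          exact (eq_neg_of_add_eq_zero_left hx).symm
        · rfl
    rw [← hGr]
    exact LinearMap.finrank_range_of_inj hG
  rw [hr, hk, Module.finrank_prod] at h
  exact h

end Pool.Agent.W958.ST
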